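import Pool.Agent.H15.KM7.Avg
import Pool.Agent.H58.KN.Stm

/-!
# The cost of the times, in any dimension
-/

set_option autoImplicit false

namespace Pool.KN

open Finset Real
open Pool.Agent.H49.Ent Pool.Agent.H32.Dense Pool.STK Pool.KA
open Pool.KM7 (Nng chn gibbs)

variable {Y : Type} {f : Y → ℕ → ℝ} {Λ : ℝ} {K : ℕ} {m J : ℕ}

/-- **The cost of `N` blocks of `K` digits of the time**, the last `K * sh` digits excluded: `y i`
is the state of the block `i` (counted from the end), `f` the cost of the digits in this state. -/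
noncomputable def co (f : Y → ℕ → ℝ) (Λ : ℝ) (K N sh : ℕ) (F : Fam m J) (y : ℕ → F.Ω → Y) : ℝ :=
  ∑ i ∈ range N, Ex F.p (fun ω => f (y (sh + i) ω) (F.T ω / 2 ^ (K * (sh + i)) % 2 ^ K)) -
    Λ * CH F.p (fun ω => F.T ω / 2 ^ (K * sh) % 2 ^ (K * N))
      (fun ω => ((F.l ω, F.Z ω), F.T ω / 2 ^ (K * (sh + N))))

theorem Adm.mono {N N' : ℕ} {F : Fam m J} {y : ℕ → F.Ω → Y} (h : Adm K N' F y) (hN : N ≤ N') :
    Adm K N F y := fun i hi => h i (hi.trans_le hN)

theorem co_add (N₁ N₂ sh : ℕ) (F : Fam m J) (y : ℕ → F.Ω → Y) :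
    co f Λ K (N₁ + N₂) sh F y = co f Λ K N₁ sh F y + co f Λ K N₂ (sh + N₁) F y := by
  unfold co
  rw [Finset.sum_range_add]
  have h := chn F.isLaw.nonneg (fun ω => F.T ω / 2 ^ (K * sh)) (fun ω => (F.l ω, F.Z ω))
    (K * N₁) (K * N₂)
  have e1 : ∀ ω, F.T ω / 2 ^ (K * sh) / 2 ^ (K * (N₁ + N₂)) =
      F.T ω / 2 ^ (K * (sh + (N₁ + N₂))) := fun ω => by
    rw [Nat.div_div_eq_div_mul, ← pow_add]
    congr 2
    ring
  have e2 : ∀ ω, F.T ω / 2 ^ (K * sh) / 2 ^ (K * N₁) = F.T ω / 2 ^ (K * (sh + N₁)) := fun ω => by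
    rw [Nat.div_div_eq_div_mul, ← pow_add]
    congr 2
    ring
  have e3 : K * N₁ + K * N₂ = K * (N₁ + N₂) := by ring
  simp only [e1, e2, e3] at h
  rw [h]
  simp only [Nat.add_assoc]
  ring

theorem co_zero (sh : ℕ) (F : Fam m J) (y : ℕ → F.Ω → Y) : co f Λ K 0 sh F y = 0 := by
  have h := co_add (f := f) (Λ := Λ) (K := K) 0 0 sh F y
  rw [add_zero, add_zero] at h
  linarith

/-- The cost of one block. -/
theorem co_one (sh : ℕ) (F : Fam m J) (y : ℕ → F.Ω → Y) : co f Λ K 1 sh F y =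
    Ex F.p (fun ω => f (y sh ω) (F.T ω / 2 ^ (K * sh) % 2 ^ K)) -
      Λ * CH F.p (fun ω => F.T ω / 2 ^ (K * sh) % 2 ^ K)
        (fun ω => ((F.l ω, F.Z ω), F.T ω / 2 ^ (K * (sh + 1)))) := by
  unfold co
  rw [Finset.sum_range_one, add_zero, mul_one]

theorem co_succ (N : ℕ) (F : Fam m J) (y : ℕ → F.Ω → Y) :
    co f Λ K (N + 1) 0 F y = co f Λ K N 0 F y + co f Λ K 1 N F y := by
  have h := co_add (f := f) (Λ := Λ) (K := K) N 1 0 F y
  rw [zero_add] at h
  exact h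

/-- No digits excluded. -/
theorem co_cst (N : ℕ) (F : Fam m J) (y : ℕ → F.Ω → Y) : co f Λ K N 0 F y = cst f Λ K N F y := by
  unfold co cst
  simp only [zero_add, mul_zero, pow_zero, Nat.div_one]

/-- The cost is not negative. -/
theorem co_nonneg (hΛ : 0 < Λ) (hf : Nng f Λ K) (F : Fam m J) (y : ℕ → F.Ω → Y) (N sh : ℕ)
    (hA : Adm K (sh + N) F y) : 0 ≤ co f Λ K N sh F y := by
  induction N with
  | zero => rw [co_zero]
  | succ N ih =>
    rw [co_add]
    have h1 := ih (hA.mono (by omega))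
    have h2 := gibbs hΛ hf F.isLaw (y (sh + N))
      (fun ω => F.T ω / 2 ^ (K * (sh + N)) % 2 ^ K)
      (fun ω => Nat.mod_lt _ (by positivity)) _ (hA (sh + N) (by omega))
    rw [co_one]
    linarith

end Pool.KN
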