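import Pool.Agent.H15.KN.Tow
import Pool.Agent.H15.KM7.Pair

/-!
# Abstract label values: labels of copies, mixtures, coarse cells as side information

The potential of a label `b` at a window `w` is the length of the window, plus the volume exponent,
minus the entropy of the label with the window.
-/

set_option autoImplicit false

namespace Pool.KN

open Finset Real
open Pool.Agent.H49.Ent Pool.Agent.H32.Dense Pool.STK Pool.KA
open Pool.KM7 (Psh sg sg_isLaw sg_Ex sg_CH sg_law avg_Ex avg_CH cond_isLaw)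

/-- The exact line. -/
abbrev Ln (m : ℕ) : Type := (Fin m → ℝ) × (Fin m → ℝ)

/-- Abstract values of labels. `J` is the resolution, `w` the window. -/
structure LV (m : ℕ) where
  /-- coarse cells -/
  Cx : Type
  /-- values -/
  V : Type
  /-- `v` is a label of the line at the window of the time `t`, inside the coarse cell,
  with the range `k` and the slack `a` -/
  ok : (_J _w : ℕ) → Cx → (_k _a : ℕ) → Ln m → (_t : ℕ) → V → Prop
  /-- the volume exponent of the complement -/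
  pot : (_J _w : ℕ) → (_t : ℕ) → V → ℝ
  ok_mono : ∀ {J w : ℕ} {c : Cx} {k a a' : ℕ} {l : Ln m} {t : ℕ} {v : V}, a ≤ a' →
    ok J w c k a l t v → ok J w c k a' l t v

variable {m : ℕ} (L : LV m)

/-- The potential of a label. -/
noncomputable def LV.Psi {J : ℕ} (F : Fam m J) (w : ℕ) (b : F.Ω → L.V) : ℝ :=
  (w + m * J) * Real.log 2 - Ex F.p (fun ω => L.pot J w (F.T ω / 2 ^ (J - w)) (b ω)) -
    CH F.p (fun ω => (F.T ω / 2 ^ (J - w), b ω)) F.Z

/-- `b` is a label of the family at the window `w`. -/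
def LV.Ok {J : ℕ} (F : Fam m J) (w : ℕ) (c : F.ζ → L.Cx) (k a : ℕ) (b : F.Ω → L.V) : Prop :=
  ∀ ω, 0 < F.p ω → L.ok J w (c (F.Z ω)) k a (F.l ω) (F.T ω / 2 ^ (J - w)) (b ω)

/-- Some label of some copy has potential at least `x`. -/
def LV.Get {J : ℕ} (F : Fam m J) (w : ℕ) (c : F.ζ → L.Cx) (k a : ℕ) (x : ℝ) : Prop :=
  ∃ (E : Type) (_ : Fintype E) (p' : E → ℝ) (hp' : IsLaw p') (pr : E → F.Ω) (b : E → L.V),
    Psh p' pr F.p ∧ L.Ok (F.ext p' hp' pr) w c k a b ∧ x ≤ L.Psi (F.ext p' hp' pr) w b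

theorem LV.Get.mono {L : LV m} {J : ℕ} {F : Fam m J} {w : ℕ} {c : F.ζ → L.Cx} {k a a' : ℕ}
    {x x' : ℝ} (ha : a ≤ a') (hx : x' ≤ x) (h : L.Get F w c k a x) : L.Get F w c k a' x' := by
  obtain ⟨E, i, p', hp', pr, b, h1, h2, h3⟩ := h
  exact ⟨E, i, p', hp', pr, b, h1, fun e he => L.ok_mono ha (h2 e he), hx.trans h3⟩

/-- The class of labels given by the values. -/
def LV.sys : LSys m where
  Cx := L.Cx
  Get := fun F w c k a x => L.Get F w c k a x
  mono := fun ha hx h => h.mono ha hx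

variable {L}

theorem LV.Get.self {J : ℕ} (F : Fam m J) {w : ℕ} {c : F.ζ → L.Cx} {k a : ℕ} {b : F.Ω → L.V}
    (hb : L.Ok F w c k a b) : L.Get F w c k a (L.Psi F w b) :=
  ⟨F.Ω, F.fin, F.p, F.isLaw, fun ω => ω, b, Psh.id F.p, hb, le_refl _⟩

theorem LV.Get.of_ext {J : ℕ} {F : Fam m J} {w : ℕ} {c : F.ζ → L.Cx} {k a : ℕ} {E : Type}
    [Fintype E] {p' : E → ℝ} {hp' : IsLaw p'} {pr : E → F.Ω} (h : Psh p' pr F.p) {x : ℝ}
    (hG : L.Get (F.ext p' hp' pr) w c k a x) : L.Get F w c k a x := by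
  obtain ⟨E', i, p'', hp'', pr', b, h1, h2, h3⟩ := hG
  exact ⟨E', i, p'', hp'', fun e => pr (pr' e), b, h.comp h1, h2, h3⟩

/-- **A coarse cell as side information.** -/
theorem LV.Get.uncnd {J : ℕ} {F : Fam m J} {w : ℕ} {c : F.ζ → L.Cx} {k a k' a' : ℕ}
    (z : F.Ω → L.Cx)
    (hz : ∀ ω, 0 < F.p ω → ∀ v, L.ok J w (z ω) k' a' (F.l ω) (F.T ω / 2 ^ (J - w)) v →
      L.ok J w (c (F.Z ω)) k a (F.l ω) (F.T ω / 2 ^ (J - w)) v) {x : ℝ}
    (hG : L.Get (F.cnd z) w Prod.fst k' a' x) : L.Get F w c k a (x - CH F.p z F.Z) := by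
  obtain ⟨E, i, p', hp', pr, b, h1, h2, h3⟩ := hG
  refine ⟨E, i, p', hp', pr, b, h1, fun e he => hz (pr e) (h1.pos hp'.nonneg he) _ (h2 e he), ?_⟩
  have e1 : CH p' (fun e => z (pr e)) (fun e => F.Z (pr e)) = CH F.p z F.Z := h1.CH_eq z F.Z
  have e2 := CH_le_add hp'.nonneg (fun e => (F.T (pr e) / 2 ^ (J - w), b e))
    (fun e => z (pr e)) (fun e => F.Z (pr e))
  have e3 : L.Psi ((F.cnd z).ext p' hp' pr) w b = (w + m * J) * Real.log 2 -
      Ex p' (fun e => L.pot J w (F.T (pr e) / 2 ^ (J - w)) (b e)) -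
      CH p' (fun e => (F.T (pr e) / 2 ^ (J - w), b e)) (fun e => (z (pr e), F.Z (pr e))) := rfl
  have e4 : L.Psi (F.ext p' hp' pr) w b = (w + m * J) * Real.log 2 -
      Ex p' (fun e => L.pot J w (F.T (pr e) / 2 ^ (J - w)) (b e)) -
      CH p' (fun e => (F.T (pr e) / 2 ^ (J - w), b e)) (fun e => F.Z (pr e)) := rfl
  rw [e3] at h3
  rw [e4, ← e1]
  linarith

/-- **Mixtures.** -/
theorem LV.Get.mix {J : ℕ} (F : Fam m J) {w : ℕ} {c : F.ζ → L.Cx} {k a : ℕ} {σ : Type}
    [DecidableEq σ] (S : F.Ω → σ)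
    (x : σ → ℝ) (hget : ∀ s (hs : law F.p S s ≠ 0),
      L.Get (F.res S s (cond_isLaw F.isLaw.nonneg S hs)) w c k a (x s)) :
    L.Get F w c k a (∑ s ∈ univ.image S, law F.p S s * x s - CH F.p S F.Z) := by
  classical
  set I := {s // s ∈ (univ.image S).filter (fun s => law F.p S s ≠ 0)} with hI
  have hne : ∀ i : I, law F.p S i.1 ≠ 0 := fun i => (Finset.mem_filter.mp i.2).2
  have hget' : ∀ i : I, ∃ (E : Type) (_ : Fintype E) (p' : E → ℝ) (hp' : IsLaw p')
      (pr : E → F.Ω) (b : E → L.V), Psh p' pr (cond F.p S i.1) ∧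
      L.Ok (F.ext p' hp' pr) w c k a b ∧ x i.1 ≤ L.Psi (F.ext p' hp' pr) w b :=
    fun i => hget i.1 (hne i)
  choose E inst p' hp' pr b hpsh hok hx using hget'
  set wt : I → ℝ := fun i => law F.p S i.1 with hwt
  have hw0 : ∀ i, 0 ≤ wt i := fun i => law_nonneg F.isLaw.nonneg _ _
  have hsum : ∀ f : σ → ℝ, (∀ s, law F.p S s = 0 → f s = 0) →
      ∑ i : I, f i.1 = ∑ s ∈ univ.image S, f s := by
    intro f hf
    rw [Finset.sum_coe_sort ((univ.image S).filter (fun s => law F.p S s ≠ 0)) f,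
      Finset.sum_filter]
    refine Finset.sum_congr rfl fun s _ => ?_
    split_ifs with h1
    · rfl
    · exact (hf s (not_not.mp h1)).symm
  have hw1 : ∑ i, wt i = 1 := by
    have h1 := hsum (fun s => law F.p S s) (fun s hs => hs)
    have h2 := sum_law F.p S
    rw [F.isLaw.sum_one] at h2
    exact h1.trans h2
  set P := sg wt p' with hP
  have hPl : IsLaw P := sg_isLaw hw0 hw1 hp'
  have hpos : ∀ e, 0 < P e → 0 < wt e.1 ∧ 0 < p' e.1 e.2 := by
    intro e he
    rw [hP] at he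
    unfold sg at he
    rcases (hw0 e.1).eq_or_lt with h0 | h0
    · rw [← h0, zero_mul] at he
      exact absurd he (lt_irrefl _)
    rcases ((hp' e.1).nonneg e.2).eq_or_lt with h3 | h3
    · rw [← h3, mul_zero] at he
      exact absurd he (lt_irrefl _)
    exact ⟨h0, h3⟩
  have hS : ∀ e, 0 < P e → S (pr e.1 e.2) = e.1.1 := by
    intro e he
    have h1 : 0 < cond F.p S e.1.1 (pr e.1 e.2) :=
      (hpsh e.1).pos (hp' e.1).nonneg (hpos e he).2
    exact ((cond_pos_iff F.isLaw.nonneg S e.1.1 _).mp h1).2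
  have hPsh : Psh P (fun e : (Σ i, E i) => (pr e.1 e.2 : F.Ω)) F.p := by
    intro ω
    rw [hP, sg_law]
    have h1 : ∀ i : I, wt i * law (p' i) (fun e => pr i e) ω =
        if S ω = i.1 then F.p ω else 0 := by
      intro i
      have h2 : law (p' i) (fun e => pr i e) ω = cond F.p S i.1 ω := hpsh i ω
      rw [h2]
      unfold Pool.Agent.H49.Ent.cond
      split_ifs with h3
      · rw [hwt]
        field_simp [hne i]
      · rw [mul_zero]
    refine (Finset.sum_congr rfl fun i _ => h1 i).trans ?_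
    rcases (F.isLaw.nonneg ω).eq_or_lt with h0 | h0
    · rw [← h0]
      simp
    · have h4 : S ω ∈ (univ.image S).filter (fun s => law F.p S s ≠ 0) :=
        Finset.mem_filter.mpr ⟨Finset.mem_image_of_mem _ (Finset.mem_univ _),
          (law_pos F.isLaw.nonneg S h0).ne'⟩
      rw [Finset.sum_eq_single (⟨S ω, h4⟩ : I)]
      · simp
      · intro b _ hb
        rw [if_neg]
        intro h5
        exact hb (Subtype.ext h5.symm)
      · intro h5
        exact absurd (Finset.mem_univ _) h5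
  refine ⟨Σ i, E i, inferInstance, P, hPl, fun e => pr e.1 e.2, fun e => b e.1 e.2, hPsh,
    fun e he => hok e.1 e.2 (hpos e he).2, ?_⟩
  have hN := hPl.nonneg
  set Z' : (Σ i, E i) → F.ζ := fun e => F.Z (pr e.1 e.2) with hZ'
  set B : (Σ i, E i) → ℕ × L.V := fun e => (F.T (pr e.1 e.2) / 2 ^ (J - w), b e.1 e.2) with hB
  set U : (Σ i, E i) → ℝ := fun e => L.pot J w (F.T (pr e.1 e.2) / 2 ^ (J - w)) (b e.1 e.2)
    with hU
  -- the entropy of the label
  have e1 : CH P B Z' ≤ CH P (fun e : (Σ i, E i) => e.1) Z' + CH P B (fun e => (e.1, Z' e)) :=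
    CH_le_add hN B (fun e : (Σ i, E i) => e.1) Z'
  have e2 : CH P (fun e : (Σ i, E i) => e.1) Z' ≤ CH F.p S F.Z := by
    rw [← hPsh.CH_eq S F.Z]
    refine CH_mono_left hN ?_
    intro a b ha hb hab
    have h1 : S (pr a.1 a.2) = S (pr b.1 b.2) := (Prod.ext_iff.mp hab).1
    rw [hS a ha, hS b hb] at h1
    exact Subtype.ext h1
  have e3 : CH P B (fun e => (e.1, Z' e)) =
      ∑ i, wt i * CH (p' i) (fun e => (F.T (pr i e) / 2 ^ (J - w), b i e))
        (fun e => F.Z (pr i e)) := by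
    have h1 := sg_CH hw0 hp' B Z'
    have h2 : CH P B (fun e => (e.1, Z' e)) = CH P B (fun e => (Z' e, e.1)) := by
      refine CH_congr hN ?_ ?_ ?_ ?_
      · intro a b _ _ hh
        exact (Prod.ext_iff.mp hh).1
      · intro a b _ _ hh
        exact (Prod.ext_iff.mp hh).1
      · intro a b _ _ hh
        exact Prod.ext (Prod.ext_iff.mp hh).2 (Prod.ext_iff.mp hh).1
      · intro a b _ _ hh
        exact Prod.ext (Prod.ext_iff.mp hh).2 (Prod.ext_iff.mp hh).1
    rw [h2]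
    exact h1
  have e4 : Ex P U = ∑ i, wt i * Ex (p' i)
      (fun e => L.pot J w (F.T (pr i e) / 2 ^ (J - w)) (b i e)) := sg_Ex _
  have e5 : ∑ s ∈ univ.image S, law F.p S s * x s = ∑ i, wt i * x i.1 :=
    (hsum (fun s => law F.p S s * x s) (fun s hs => by rw [hs, zero_mul])).symm
  have e6 : ∑ i, wt i * x i.1 ≤ ∑ i, wt i * L.Psi (F.ext (p' i) (hp' i) (pr i)) w (b i) :=
    Finset.sum_le_sum fun i _ => mul_le_mul_of_nonneg_left (hx i) (hw0 i)
  have e7 : ∑ i, wt i * L.Psi (F.ext (p' i) (hp' i) (pr i)) w (b i) =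
      (w + m * J) * Real.log 2 - Ex P U - CH P B (fun e => (e.1, Z' e)) := by
    rw [e3, e4]
    unfold LV.Psi
    simp only [mul_sub, Finset.sum_sub_distrib]
    rw [← Finset.sum_mul, hw1, one_mul]
    rfl
  have e8 : L.Psi (F.ext P hPl (fun e : (Σ i, E i) => (pr e.1 e.2 : F.Ω))) w
      (fun e => b e.1 e.2) = (w + m * J) * Real.log 2 - Ex P U - CH P B Z' := rfl
  refine le_trans ?_ e8.ge
  rw [e5]
  linarith

/-- The entropy is at most the logarithm of the number of possible values. -/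
theorem CH_le_of_card {Ω : Type} [Fintype Ω] {p : Ω → ℝ} (hp : IsLaw p) {S T : Type} (X : Ω → S)
    (W : Ω → T) {B : ℝ}
    (h : ∀ t : T, ∃ F : Finset S, Real.log F.card ≤ B ∧ ∀ ω, 0 < p ω → W ω = t → X ω ∈ F) :
    CH p X W ≤ B := by
  choose F hF hX using h
  refine (CH_le_card hp.nonneg hp.sum_one X W F (fun ω hω => hX (W ω) ω hω rfl)).trans ?_
  have h1 : Ex p (fun ω => Real.log ((F (W ω)).card)) ≤ Ex p (fun _ => B) := by
    unfold Ex
    exact Finset.sum_le_sum fun ω _ => mul_le_mul_of_nonneg_left (hF _) (hp.nonneg ω)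
  rwa [Ex_const hp.sum_one] at h1

end Pool.KN
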