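import Pool.Agent.H15.KN.Lab

/-!
# Localization for an abstract class of labels

Two labels of the same line at two windows inside one larger window have a common coarse cell, which
is given by the first label and by the shape of the pair; it is almost a function of the second
label and of the shape. The range of the local problem is given by the shape, and its mean is
bounded (`TURN`). So a local claim passes to all families.
-/

set_option autoImplicit false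

namespace Pool.KN

open Finset Real
open Pool.Agent.H49.Ent Pool.Agent.H32.Dense Pool.STK Pool.KA
open Pool.KM7 (Nng Psh P2 P2_isLaw P2_fst P2_snd P2_pos P2_CH avg_Ex avg_CH cond_isLaw)

/-- Types of labels, shapes of pairs of labels, ranges, coarse cells. -/
structure GS {m : ℕ} (L : LV m) where
  /-- types -/
  Ty : Type
  /-- shapes -/
  Sh : Type
  /-- the type of a label at the window `w`, in a coarse cell -/
  ty : (_J _w : ℕ) → L.Cx → L.V → Ty
  /-- the shape of two labels at the windows of `w + l` digits of the times `t₀`, `t₁` -/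
  sh : (_J _w _l : ℕ) → L.Cx → (_t₀ _t₁ : ℕ) → L.V → L.V → Sh
  /-- the range of a shape -/
  rg : Sh → ℕ
  /-- the coarse cell, at the window with `w` digits -/
  crs : (_J _w _l : ℕ) → L.Cx → (_t₀ : ℕ) → L.V → Sh → L.Cx

variable {m : ℕ} {L : LV m}

/-- Two labels of a line, of the same type, in the same large window. -/
def GS.Two (G : GS L) (J w l : ℕ) (c : L.Cx) (k a : ℕ) (x : Ln m) (t₀ t₁ : ℕ) (v₀ v₁ : L.V) :
    Prop :=
  L.ok J (w + l) c k a x t₀ v₀ ∧ L.ok J (w + l) c k a x t₁ v₁ ∧ t₀ / 2 ^ l = t₁ / 2 ^ l ∧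
    G.ty J (w + l) c v₀ = G.ty J (w + l) c v₁

/-- **The geometry of the class.** -/
structure Geo (G : GS L) (C : ℝ) (g : ℕ) : Prop where
  /-- the number of types -/
  ty_card : ∀ (J w l : ℕ) (c : L.Cx) (k a : ℕ), w + l ≤ J → ∃ 𝒯 : Finset G.Ty,
    Real.log 𝒯.card ≤ C * Real.log (k + a + l + 2) ∧
    ∀ (x : Ln m) (t : ℕ) (v : L.V), L.ok J (w + l) c k a x t v → G.ty J (w + l) c v ∈ 𝒯
  /-- the number of shapes -/
  sh_card : ∀ (J w l : ℕ) (c : L.Cx) (k a : ℕ), w + l ≤ J → ∃ 𝒮 : Finset G.Sh,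
    Real.log 𝒮.card ≤ C * Real.log (k + a + l + 2) ∧
    ∀ (x : Ln m) (t₀ t₁ : ℕ) (v₀ v₁ : L.V), G.Two J w l c k a x t₀ t₁ v₀ v₁ →
      G.sh J w l c t₀ t₁ v₀ v₁ ∈ 𝒮
  /-- the second label is a label inside the coarse cell -/
  alpha : ∀ (J w l : ℕ) (c : L.Cx) (k a : ℕ), w + l ≤ J → ∀ (x : Ln m) (t₀ t₁ : ℕ) (v₀ v₁ : L.V),
    G.Two J w l c k a x t₀ t₁ v₀ v₁ →
    L.ok J (w + l) (G.crs J w l c t₀ v₀ (G.sh J w l c t₀ t₁ v₀ v₁))
      (G.rg (G.sh J w l c t₀ t₁ v₀ v₁)) g x t₁ v₁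
  /-- a label inside the coarse cell is a label inside the outer cell -/
  beta : ∀ (J w l : ℕ) (c : L.Cx) (k a a' : ℕ), w + l ≤ J → ∀ (x : Ln m) (t₀ t₁ : ℕ)
    (v₀ v₁ v : L.V), G.Two J w l c k a x t₀ t₁ v₀ v₁ →
    L.ok J w (G.crs J w l c t₀ v₀ (G.sh J w l c t₀ t₁ v₀ v₁))
      (G.rg (G.sh J w l c t₀ t₁ v₀ v₁)) a' x (t₁ / 2 ^ l) v →
    L.ok J w c k (a + a' + g) x (t₁ / 2 ^ l) v
  /-- the coarse cell is almost a function of the second label and of the shape -/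
  gamma : ∀ (J w l : ℕ) (c : L.Cx) (k a : ℕ), w + l ≤ J → ∀ (t₁ : ℕ) (v₁ : L.V) (s : G.Sh),
    ∃ 𝒞 : Finset L.Cx, Real.log 𝒞.card ≤ C ∧
    ∀ (x : Ln m) (t₀ : ℕ) (v₀ : L.V), G.Two J w l c k a x t₀ t₁ v₀ v₁ →
      G.sh J w l c t₀ t₁ v₀ v₁ = s → G.crs J w l c t₀ v₀ s ∈ 𝒞

/-- The line, the side information, the large window, and the type of the label. -/
def GS.gg (G : GS L) {J : ℕ} (F : Fam m J) (w l : ℕ) (c : F.ζ → L.Cx) (b : F.Ω → L.V)
    (ω : F.Ω) : ((Ln m × F.ζ) × ℕ) × G.Ty :=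
  (((F.l ω, F.Z ω), F.T ω / 2 ^ (J - w)), G.ty J (w + l) (c (F.Z ω)) (b ω))

/-- The shape of the labels of two samples. -/
def GS.SS (G : GS L) {J : ℕ} (F : Fam m J) (w l : ℕ) (c : F.ζ → L.Cx) (b : F.Ω → L.V)
    (e : F.Ω × F.Ω) : G.Sh :=
  G.sh J w l (c (F.Z e.2)) (F.T e.1 / 2 ^ (J - (w + l))) (F.T e.2 / 2 ^ (J - (w + l)))
    (b e.1) (b e.2)

/-- The coarse cell of two samples. -/
def GS.CC (G : GS L) {J : ℕ} (F : Fam m J) (w l : ℕ) (c : F.ζ → L.Cx) (b : F.Ω → L.V)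
    (e : F.Ω × F.Ω) : L.Cx :=
  G.crs J w l (c (F.Z e.2)) (F.T e.1 / 2 ^ (J - (w + l))) (b e.1) (G.SS F w l c b e)

/-- **(TURN)** Some almost optimal label has a bounded mean range, and `hx` is small in the mean. -/
def Turn (G : GS L) (hx : ℕ → ℕ → L.Cx → L.V → ℝ) (C δ : ℝ) (A g : ℕ) : Prop :=
  ∀ (J w l : ℕ), 1 ≤ l → w + l ≤ J → ∀ (F : Fam m J) (c : F.ζ → L.Cx) (k a : ℕ) (x : ℝ),
    L.Get F (w + l) c k a x → ∃ (E : Type) (_ : Fintype E) (p' : E → ℝ) (hp' : IsLaw p')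
      (pr : E → F.Ω) (b : E → L.V), Psh p' pr F.p ∧ L.Ok (F.ext p' hp' pr) (w + l) c k (a + g) b ∧
      x - C * Real.log (k + a + l + 2) ≤ L.Psi (F.ext p' hp' pr) (w + l) b ∧
      Ex (P2 p' (G.gg (F.ext p' hp' pr) w l c b))
        (fun e => (G.rg (G.SS (F.ext p' hp' pr) w l c b e) : ℝ)) ≤
          A * l + C * Real.log (k + a + l + 2) ∧
      Ex (P2 p' (G.gg (F.ext p' hp' pr) w l c b))
        (fun e => hx J (w + l) (G.CC (F.ext p' hp' pr) w l c b e) (b e.2)) ≤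
          δ * l + C * Real.log (k + a + l + 2)

/-- **The local claim**, with the loss `α + β k` at range `k`, and the mean of `hx`. -/
def LCL (L : LV m) (hx : ℕ → ℕ → L.Cx → L.V → ℝ) {Y : Type} (f : Y → ℕ → ℝ) (Λ : ℝ)
    (K N g G : ℕ) (δ α β : ℝ) : Prop :=
  ∀ (J sh w : ℕ), J = w + K * N + K * sh → ∀ (F : Fam m J) (c : F.ζ → L.Cx) (k : ℕ)
    (y : ℕ → F.Ω → Y), Adm K (sh + N) F y → ∀ b : F.Ω → L.V, L.Ok F (w + K * N) c k g b →
      L.Get F w c k (g + G) (L.Psi F (w + K * N) b - co f Λ K N sh F y - δ * (K * N : ℕ) -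
        (α + β * k) - Ex F.p (fun ω => hx J (w + K * N) (c (F.Z ω)) (b ω)))

variable {G : GS L} {C : ℝ} {g : ℕ} {Y : Type} {f : Y → ℕ → ℝ} {Λ : ℝ} {K N : ℕ}

theorem div_div_sh {T K N sh : ℕ} : T / 2 ^ (K * sh) / 2 ^ (K * N) = T / 2 ^ (K * (sh + N)) := by
  rw [Nat.div_div_eq_div_mul, ← pow_add]
  congr 2
  ring

/-- **The passage from the local claim to all families, for a given label.** -/
theorem loc_self {hx : ℕ → ℕ → L.Cx → L.V → ℝ} (hG : Geo G C g) (hΛ : 0 < Λ) {G₀ : ℕ}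
    {δ α β : ℝ} (hP : LCL L hx f Λ K N g G₀ δ α β) {J sh w : ℕ} (hJ : J = w + K * N + K * sh) (F : Fam m J)
    (c : F.ζ → L.Cx) (k a : ℕ) (y : ℕ → F.Ω → Y) (hA : Adm K (sh + N) F y) (b : F.Ω → L.V)
    (hb : L.Ok F (w + K * N) c k a b) :
    L.Get F w c k (a + (G₀ + 2 * g)) (L.Psi F (w + K * N) b - co f Λ K N sh F y -
      δ * (K * N : ℕ) - α -
      β * Ex (P2 F.p (G.gg F w (K * N) c b)) (fun e => (G.rg (G.SS F w (K * N) c b e) : ℝ)) -
      Ex (P2 F.p (G.gg F w (K * N) c b))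
        (fun e => hx J (w + K * N) (G.CC F w (K * N) c b e) (b e.2)) - C - C * (1 + 2 * Λ) * Real.log (k + a + (K * N : ℕ) + 2)) := by
  classical
  have hwJ : w + K * N ≤ J := by omega
  have hJw : J - w = K * (sh + N) := by
    rw [hJ]
    have : K * (sh + N) = K * N + K * sh := by ring
    omega
  have hJw1 : J - (w + K * N) = K * sh := by omega
  set ℓ := K * N with hℓ
  set g' := G.gg F w ℓ c b with hg'
  set P := P2 F.p g' with hPdef
  have hPl : IsLaw P := P2_isLaw F.isLaw g'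
  have hfst : Psh P Prod.fst F.p := P2_fst F.isLaw g'
  have hsnd : Psh P Prod.snd F.p := P2_snd F.isLaw g'
  have hpos : ∀ e, 0 < P e → 0 < F.p e.1 ∧ 0 < F.p e.2 ∧ g' e.1 = g' e.2 := fun e he =>
    (P2_pos F.isLaw e).mp he
  have hline : ∀ e, 0 < P e → F.l e.1 = F.l e.2 ∧ F.Z e.1 = F.Z e.2 ∧
      F.T e.1 / 2 ^ (J - w) = F.T e.2 / 2 ^ (J - w) ∧
      G.ty J (w + ℓ) (c (F.Z e.1)) (b e.1) = G.ty J (w + ℓ) (c (F.Z e.2)) (b e.2) := by
    intro e he
    have h1 := (hpos e he).2.2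
    simp only [hg', GS.gg, Prod.mk.injEq] at h1
    exact ⟨h1.1.1.1, h1.1.1.2, h1.1.2, h1.2⟩
  -- the time at the window `w` from the time at the window `w + ℓ`
  have htt : ∀ ω, F.T ω / 2 ^ (J - (w + ℓ)) / 2 ^ ℓ = F.T ω / 2 ^ (J - w) := by
    intro ω
    rw [hJw1, hJw, hℓ, div_div_sh]
  have htwo : ∀ e, 0 < P e → G.Two J w ℓ (c (F.Z e.2)) k a (F.l e.2)
      (F.T e.1 / 2 ^ (J - (w + ℓ))) (F.T e.2 / 2 ^ (J - (w + ℓ))) (b e.1) (b e.2) := by
    intro e he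
    obtain ⟨h1, h2, h3, h4⟩ := hline e he
    refine ⟨?_, hb e.2 (hpos e he).2.1, ?_, ?_⟩
    · have h5 := hb e.1 (hpos e he).1
      rw [h1, h2] at h5
      exact h5
    · rw [htt, htt, h3]
    · rw [← h4, h2]
  set S := G.SS F w ℓ c b with hS
  set FP := F.ext P hPl Prod.snd with hFP
  set y2 : ℕ → F.Ω × F.Ω → Y := fun i e => y i e.2 with hy2
  set B1 : F.Ω × F.Ω → ℕ × L.V := fun e => (F.T e.2 / 2 ^ (J - (w + ℓ)), b e.2) with hB1
  set U1 : F.Ω × F.Ω → ℝ := fun e => L.pot J (w + ℓ) (F.T e.2 / 2 ^ (J - (w + ℓ))) (b e.2)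
    with hU1
  set M1 : F.Ω × F.Ω → ℕ := fun e => F.T e.2 / 2 ^ (K * sh) % 2 ^ (K * N) with hM1
  set fi : ℕ → F.Ω × F.Ω → ℝ := fun i e =>
    f (y (sh + i) e.2) (F.T e.2 / 2 ^ (K * (sh + i)) % 2 ^ K) with hfi
  set zz : G.Sh → F.Ω × F.Ω → L.Cx := fun s e =>
    G.crs J w ℓ (c (F.Z e.2)) (F.T e.1 / 2 ^ (J - (w + ℓ))) (b e.1) s with hzz
  set x : G.Sh → ℝ := fun s =>
    ((w + ℓ : ℕ) + m * J) * Real.log 2 - Ex (cond P S s) U1 -
      CH (cond P S s) B1 (fun e => F.Z e.2) -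
    (∑ i ∈ range N, Ex (cond P S s) (fi i) -
      Λ * CH (cond P S s) M1 (fun e => e.1)) - δ * (ℓ : ℕ) - (α + β * G.rg s) -
    Ex (cond P S s) (fun e => hx J (w + ℓ) (zz s e) (b e.2)) - C with hxx
  have hmix := LV.Get.mix (L := L) FP (w := w) (c := c) (k := k) (a := a + (G₀ + 2 * g)) S x (by
    intro s hs
    have hs' : law P S s ≠ 0 := hs
    set Q := cond P S s with hQ
    have hQl : IsLaw Q := cond_isLaw hPl.nonneg S hs'
    have hQpos : ∀ e, 0 < Q e → 0 < P e ∧ S e = s := fun e he =>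
      (cond_pos_iff hPl.nonneg S _ e).mp he
    set FQ := FP.res S s (cond_isLaw FP.isLaw.nonneg S hs) with hFQ
    set z : F.Ω × F.Ω → L.Cx := zz s with hz
    -- the label of the second sample
    have hok : L.Ok (FQ.cnd z) (w + ℓ) Prod.fst (G.rg s) g (fun e => b e.2) := by
      intro e he
      obtain ⟨h1, h2⟩ := hQpos e he
      have h3 := hG.alpha J w ℓ (c (F.Z e.2)) k a hwJ _ _ _ _ _ (htwo e h1)
      have h4 : G.sh J w ℓ (c (F.Z e.2)) (F.T e.1 / 2 ^ (J - (w + ℓ)))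
        (F.T e.2 / 2 ^ (J - (w + ℓ))) (b e.1) (b e.2) = s := h2
      rw [h4] at h3
      exact h3
    have hAdm' : Adm K (sh + N) (FQ.cnd z) y2 := by
      intro i hi e e' he he' hee
      have h1 := (hpos e (hQpos e he).1).2.1
      have h2 := (hpos e' (hQpos e' he').1).2.1
      refine hA i hi e.2 e'.2 h1 h2 ?_
      have h3 := (Prod.ext_iff.mp hee).1
      have h4 : F.T e.2 / 2 ^ (K * (i + 1)) = F.T e'.2 / 2 ^ (K * (i + 1)) :=
        (Prod.ext_iff.mp hee).2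
      have h5 : F.l e.2 = F.l e'.2 := (Prod.ext_iff.mp h3).1
      have h6 : (z e, F.Z e.2) = (z e', F.Z e'.2) := (Prod.ext_iff.mp h3).2
      exact Prod.ext (Prod.ext h5 (Prod.ext_iff.mp h6).2) h4
    have h1 := hP J sh w hJ (FQ.cnd z) Prod.fst (G.rg s) y2 hAdm' _ hok
    have h2 : L.Get FQ w c k (a + (G₀ + 2 * g))
        (L.Psi (FQ.cnd z) (w + ℓ) (fun e => b e.2) - co f Λ K N sh (FQ.cnd z) y2 -
          δ * (ℓ : ℕ) - (α + β * G.rg s) - Ex Q (fun e => hx J (w + ℓ) (z e) (b e.2)) -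
          CH Q z (fun e => F.Z e.2)) := by
      refine LV.Get.uncnd (F := FQ) z ?_ h1
      intro e he v hv
      obtain ⟨k1, k2⟩ := hQpos e he
      have k3 := htwo e k1
      have k4 : G.sh J w ℓ (c (F.Z e.2)) (F.T e.1 / 2 ^ (J - (w + ℓ)))
        (F.T e.2 / 2 ^ (J - (w + ℓ))) (b e.1) (b e.2) = s := k2
      have k5 := hG.beta J w ℓ (c (F.Z e.2)) k a (g + G₀) hwJ _ _ _ _ _ v k3
      rw [k4, htt] at k5
      have k6 := k5 hv
      refine L.ok_mono ?_ k6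
      omega
    refine h2.mono (le_refl _) ?_
    -- the potential
    have e1 : L.Psi (FQ.cnd z) (w + ℓ) (fun e => b e.2) = ((w + ℓ : ℕ) + m * J) * Real.log 2 -
        Ex Q U1 - CH Q B1 (fun e => (z e, F.Z e.2)) := rfl
    have e2 := CH_chain hQl.nonneg B1 z (fun e => F.Z e.2)
    have e3 := CH_chain hQl.nonneg z B1 (fun e => F.Z e.2)
    have e4 : CH Q (fun e => (z e, B1 e)) (fun e => F.Z e.2) =
        CH Q (fun e => (B1 e, z e)) (fun e => F.Z e.2) := by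
      refine CH_congr hQl.nonneg ?_ ?_ (fun _ _ _ _ h => h) (fun _ _ _ _ h => h)
      · intro e e' _ _ h
        simp only [Prod.mk.injEq] at h ⊢
        tauto
      · intro e e' _ _ h
        simp only [Prod.mk.injEq] at h ⊢
        tauto
    have e5 : CH Q z (fun e => (B1 e, F.Z e.2)) ≤ C := by
      refine CH_le_of_card hQl z _ ?_
      rintro ⟨⟨t₁, v₁⟩, ζ₀⟩
      obtain ⟨𝒞, h3, h4⟩ := hG.gamma J w ℓ (c ζ₀) k a hwJ t₁ v₁ s
      refine ⟨𝒞, h3, fun e he hee => ?_⟩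
      obtain ⟨k1, k2⟩ := hQpos e he
      have k3 := htwo e k1
      have k4 : G.sh J w ℓ (c (F.Z e.2)) (F.T e.1 / 2 ^ (J - (w + ℓ)))
        (F.T e.2 / 2 ^ (J - (w + ℓ))) (b e.1) (b e.2) = s := k2
      simp only [hB1, Prod.mk.injEq] at hee
      obtain ⟨⟨i1, i2⟩, i3⟩ := hee
      rw [i1, i2, i3] at k3 k4
      have k5 := h4 _ _ _ k3 k4
      simp only [hz, hzz]
      rw [i3]
      exact k5
    -- the cost
    have e6 : co f Λ K N sh (FQ.cnd z) y2 = ∑ i ∈ range N, Ex Q (fi i) -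
        Λ * CH Q M1 (fun e => ((F.l e.2, (z e, F.Z e.2)), F.T e.2 / 2 ^ (K * (sh + N)))) := rfl
    have e7 : CH Q M1 (fun e => e.1) ≤
        CH Q M1 (fun e => ((F.l e.2, (z e, F.Z e.2)), F.T e.2 / 2 ^ (K * (sh + N)))) := by
      refine CH_mono_cond hQl.nonneg ?_
      intro e e' he he' hee
      have hee' : e.1 = e'.1 := hee
      obtain ⟨i1, i2, i3, _⟩ := hline e (hQpos e he).1
      obtain ⟨j1, j2, j3, _⟩ := hline e' (hQpos e' he').1
      rw [hJw] at i3 j3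
      have k1 : F.l e.2 = F.l e'.2 := by rw [← i1, ← j1, hee']
      have k2 : F.Z e.2 = F.Z e'.2 := by rw [← i2, ← j2, hee']
      have k3 : F.T e.2 / 2 ^ (K * (sh + N)) = F.T e'.2 / 2 ^ (K * (sh + N)) := by
        rw [← i3, ← j3, hee']
      have k4 : z e = z e' := by
        simp only [hz, hzz]
        rw [k2, hee']
      exact Prod.ext (Prod.ext k1 (Prod.ext k4 k2)) k3
    have e8 := mul_le_mul_of_nonneg_left e7 hΛ.le
    rw [e1, e6]
    simp only [hxx]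
    linarith)
  have hget : L.Get F w c k (a + (G₀ + 2 * g))
      (∑ s ∈ univ.image S, law P S s * x s - CH P S (fun e => F.Z e.2)) :=
    LV.Get.of_ext hsnd hmix
  refine hget.mono (le_refl _) ?_
  -- the averages
  have a1 := avg_Ex hPl.nonneg S U1
  have a2 := avg_CH hPl.nonneg S B1 (fun e => F.Z e.2)
  have a3 : ∀ i, Ex P (fi i) = ∑ s ∈ univ.image S, law P S s *
      Ex (cond P S s) (fi i) := fun i => avg_Ex hPl.nonneg S (fi i)
  have a4 := avg_CH hPl.nonneg S M1 (fun e => e.1)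
  have a5 : ∑ s ∈ univ.image S, law P S s = 1 := (sum_law P S).trans hPl.sum_one
  have a6 : Ex P (fun e => (G.rg (S e) : ℝ)) = ∑ s ∈ univ.image S, law P S s * (G.rg s : ℝ) := by
    rw [avg_Ex hPl.nonneg S (fun e => (G.rg (S e) : ℝ))]
    refine Finset.sum_congr rfl fun s _ => ?_
    by_cases hs : law P S s = 0
    · rw [hs, zero_mul, zero_mul]
    congr 1
    have hQl : IsLaw (cond P S s) := cond_isLaw hPl.nonneg S hs
    have h1 : Ex (cond P S s) (fun e => (G.rg (S e) : ℝ)) =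
        Ex (cond P S s) (fun _ => (G.rg s : ℝ)) := by
      unfold Ex
      refine Finset.sum_congr rfl fun e _ => ?_
      rcases (hQl.nonneg e).eq_or_lt with h0 | h0
      · rw [← h0, zero_mul, zero_mul]
      · have h2 : S e = s := ((cond_pos_iff hPl.nonneg S _ e).mp h0).2
        simp only [h2]
    rw [h1, Ex_const hQl.sum_one]
  have a7 : Ex P (fun e => hx J (w + ℓ) (G.CC F w ℓ c b e) (b e.2)) =
      ∑ s ∈ univ.image S, law P S s *
        Ex (cond P S s) (fun e => hx J (w + ℓ) (zz s e) (b e.2)) := by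
    rw [avg_Ex hPl.nonneg S (fun e => hx J (w + ℓ) (G.CC F w ℓ c b e) (b e.2))]
    refine Finset.sum_congr rfl fun s _ => ?_
    by_cases hs : law P S s = 0
    · rw [hs, zero_mul, zero_mul]
    congr 1
    have hQl : IsLaw (cond P S s) := cond_isLaw hPl.nonneg S hs
    unfold Ex
    refine Finset.sum_congr rfl fun e _ => ?_
    rcases (hQl.nonneg e).eq_or_lt with h0 | h0
    · rw [← h0, zero_mul, zero_mul]
    · have h2 : G.SS F w ℓ c b e = s := ((cond_pos_iff hPl.nonneg S _ e).mp h0).2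
      simp only [hzz, GS.CC, h2]
  have hsumx : ∑ s ∈ univ.image S, law P S s * x s =
      (((w + ℓ : ℕ) + m * J) * Real.log 2 - Ex P U1 - CH P B1 (fun e => (F.Z e.2, S e))) -
      (∑ i ∈ range N, Ex P (fi i) - Λ * CH P M1 (fun e => (e.1, S e))) -
      δ * (ℓ : ℕ) - (α + β * Ex P (fun e => (G.rg (S e) : ℝ))) -
      Ex P (fun e => hx J (w + ℓ) (G.CC F w ℓ c b e) (b e.2)) - C := by
    have h1 : ∀ s, law P S s * x s =
        law P S s * (((w + ℓ : ℕ) + m * J) * Real.log 2) -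
        law P S s * Ex (cond P S s) U1 -
        law P S s * CH (cond P S s) B1 (fun e => F.Z e.2) -
        (∑ i ∈ range N, law P S s * Ex (cond P S s) (fi i) -
          Λ * (law P S s * CH (cond P S s) M1 (fun e => e.1))) -
        law P S s * (δ * (ℓ : ℕ)) - (law P S s * α + β * (law P S s * G.rg s)) -
        law P S s * Ex (cond P S s) (fun e => hx J (w + ℓ) (zz s e) (b e.2)) -
        law P S s * C := by
      intro s
      rw [hxx, ← Finset.mul_sum]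
      ring
    rw [Finset.sum_congr rfl fun s _ => h1 s]
    simp only [Finset.sum_sub_distrib, Finset.sum_add_distrib]
    rw [← Finset.sum_mul, ← Finset.sum_mul, ← Finset.sum_mul, ← Finset.sum_mul, a5, ← a1, ← a2,
      Finset.sum_comm, ← Finset.mul_sum, ← Finset.mul_sum, ← a4, ← a6, ← a7]
    rw [Finset.sum_congr rfl fun i _ => (a3 i).symm]
    ring
  rw [hsumx]
  -- the label of the second sample
  have b1 : Ex P U1 = Ex F.p (fun ω => L.pot J (w + ℓ) (F.T ω / 2 ^ (J - (w + ℓ))) (b ω)) :=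
    hsnd.Ex_eq (fun ω => L.pot J (w + ℓ) (F.T ω / 2 ^ (J - (w + ℓ))) (b ω))
  have b2 : CH P B1 (fun e => (F.Z e.2, S e)) ≤
      CH F.p (fun ω => (F.T ω / 2 ^ (J - (w + ℓ)), b ω)) F.Z := by
    have h1 : CH P B1 (fun e => (F.Z e.2, S e)) ≤ CH P B1 (fun e => F.Z e.2) :=
      CH_mono_cond hPl.nonneg (fun a b _ _ h => (Prod.ext_iff.mp h).1)
    have h2 : CH P B1 (fun e => F.Z e.2) =
        CH F.p (fun ω => (F.T ω / 2 ^ (J - (w + ℓ)), b ω)) F.Z :=
      hsnd.CH_eq (fun ω => (F.T ω / 2 ^ (J - (w + ℓ)), b ω)) F.Z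
    linarith
  -- the times
  have c1 : ∀ i, Ex P (fi i) = Ex F.p
      (fun ω => f (y (sh + i) ω) (F.T ω / 2 ^ (K * (sh + i)) % 2 ^ K)) :=
    fun i => hsnd.Ex_eq (fun ω => f (y (sh + i) ω) (F.T ω / 2 ^ (K * (sh + i)) % 2 ^ K))
  set M : F.Ω → ℕ := fun ω => F.T ω / 2 ^ (K * sh) % 2 ^ (K * N) with hM
  set base : F.Ω → (Ln m × F.ζ) × ℕ := fun ω => ((F.l ω, F.Z ω), F.T ω / 2 ^ (K * (sh + N)))
    with hbase
  have c2 : CH P M1 (fun e => e.1) = CH F.p M g' := P2_CH F.isLaw g' M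
  have c3 : CH P M1 (fun e => e.1) ≤ CH P S (fun e => e.1) +
      CH P M1 (fun e => (S e, e.1)) := CH_le_add hPl.nonneg M1 S (fun e => e.1)
  have c4 : CH P M1 (fun e => (S e, e.1)) = CH P M1 (fun e => (e.1, S e)) := by
    refine CH_congr hPl.nonneg ?_ ?_ ?_ ?_
    · intro a b _ _ hab
      exact (Prod.ext_iff.mp hab).1
    · intro a b _ _ hab
      exact (Prod.ext_iff.mp hab).1
    · intro a b _ _ hh
      exact Prod.ext (Prod.ext_iff.mp hh).2 (Prod.ext_iff.mp hh).1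
    · intro a b _ _ hh
      exact Prod.ext (Prod.ext_iff.mp hh).2 (Prod.ext_iff.mp hh).1
  have c5 : CH F.p M base ≤ CH F.p (fun ω => G.ty J (w + ℓ) (c (F.Z ω)) (b ω)) base +
      CH F.p M (fun ω => (G.ty J (w + ℓ) (c (F.Z ω)) (b ω), base ω)) :=
    CH_le_add F.isLaw.nonneg M _ base
  have c6 : CH F.p M (fun ω => (G.ty J (w + ℓ) (c (F.Z ω)) (b ω), base ω)) = CH F.p M g' := by
    refine CH_congr F.isLaw.nonneg ?_ ?_ ?_ ?_
    · intro a b _ _ hab
      exact (Prod.ext_iff.mp hab).1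
    · intro a b _ _ hab
      exact (Prod.ext_iff.mp hab).1
    · intro a b _ _ hh
      simp only [hg', GS.gg, hbase, hJw, Prod.mk.injEq] at hh ⊢
      tauto
    · intro a b _ _ hh
      simp only [hg', GS.gg, hbase, hJw, Prod.mk.injEq] at hh ⊢
      tauto
  -- the cardinalities
  set lM := Real.log (k + a + (ℓ : ℕ) + 2) with hlM
  have hcS : CH P S (fun e => F.Z e.2) ≤ C * lM := by
    refine CH_le_of_card hPl S _ fun ζ₀ => ?_
    obtain ⟨𝒮, h1, h2⟩ := hG.sh_card J w ℓ (c ζ₀) k a hwJ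
    refine ⟨𝒮, h1, fun e he hee => ?_⟩
    have h3 := h2 _ _ _ _ _ (by
      have := htwo e he
      rw [show F.Z e.2 = ζ₀ from hee] at this
      exact this)
    have h4 : S e = G.sh J w ℓ (c ζ₀) (F.T e.1 / 2 ^ (J - (w + ℓ)))
      (F.T e.2 / 2 ^ (J - (w + ℓ))) (b e.1) (b e.2) := by
      rw [← show F.Z e.2 = ζ₀ from hee]
      rfl
    rw [h4]
    exact h3
  have hcS1 : CH P S (fun e => e.1) ≤ C * lM := by
    refine CH_le_of_card hPl S _ fun ω₀ => ?_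
    obtain ⟨𝒮, h1, h2⟩ := hG.sh_card J w ℓ (c (F.Z ω₀)) k a hwJ
    refine ⟨𝒮, h1, fun e he hee => ?_⟩
    have hZ : F.Z e.2 = F.Z ω₀ := by
      rw [← (hline e he).2.1, show e.1 = ω₀ from hee]
    have h3 := h2 _ _ _ _ _ (by
      have := htwo e he
      rw [hZ] at this
      exact this)
    have h4 : S e = G.sh J w ℓ (c (F.Z ω₀)) (F.T e.1 / 2 ^ (J - (w + ℓ)))
      (F.T e.2 / 2 ^ (J - (w + ℓ))) (b e.1) (b e.2) := by
      rw [← hZ]
      rfl
    rw [h4]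
    exact h3
  have hct : CH F.p (fun ω => G.ty J (w + ℓ) (c (F.Z ω)) (b ω)) base ≤ C * lM := by
    refine CH_le_of_card F.isLaw _ _ ?_
    rintro ⟨⟨l₀, ζ₀⟩, t₀⟩
    obtain ⟨𝒯, h1, h2⟩ := hG.ty_card J w ℓ (c ζ₀) k a hwJ
    refine ⟨𝒯, h1, fun ω hω hee => ?_⟩
    simp only [hbase, Prod.mk.injEq] at hee
    have h3 := hb ω hω
    rw [hee.1.2] at h3 ⊢
    exact h2 _ _ _ h3
  have d3 : CH F.p M base - 2 * (C * lM) ≤ CH P M1 (fun e => (e.1, S e)) := by
    rw [← c4]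
    linarith
  have d4 : Λ * (CH F.p M base - 2 * (C * lM)) ≤ Λ * CH P M1 (fun e => (e.1, S e)) :=
    mul_le_mul_of_nonneg_left d3 hΛ.le
  have hcst : co f Λ K N sh F y = ∑ i ∈ range N, Ex P (fi i) - Λ * CH F.p M base := by
    unfold co
    rw [Finset.sum_congr rfl fun i _ => c1 i]
  have hPsi : L.Psi F (w + ℓ) b = ((w + ℓ : ℕ) + m * J) * Real.log 2 - Ex P U1 -
      CH F.p (fun ω => (F.T ω / 2 ^ (J - (w + ℓ)), b ω)) F.Z := by
    rw [b1]
    rfl
  rw [hcst, hPsi]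
  have d7 : C * (1 + 2 * Λ) * lM = C * lM + Λ * (2 * (C * lM)) := by ring
  rw [d7]
  linarith

end Pool.KN
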