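import Pool.Agent.H15.KN.Tow

/-!
# From a class of labels with localisation to the bound by the cost of the times
-/

set_option autoImplicit false

namespace Pool.KN

open Finset Real
open Pool.Agent.H49.Ent Pool.Agent.H32.Dense Pool.STK Pool.KA
open Pool.KM7 (Nng)

/-- The two ends of the walk: the label of the points, and the directions. -/
def EndsN (m : ℕ) (κ : ℝ) (S : LSys m) : Prop :=
  ∃ C : ℝ, 0 ≤ C ∧ ∀ (J : ℕ) (F : Fam m J), Bd F → ∃ (c : F.ζ → S.Cx) (k a : ℕ),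
    (k : ℝ) + a ≤ C * (J + 1) ∧
    S.Get F J c k a
      ((m + 1) * (J * Real.log 2) - CH F.p (fun ω => (F.X J ω, F.T ω)) F.Z - κ * J - C) ∧
    ∀ (a' : ℕ) (x : ℝ), S.Get F 0 c k (a + a') x →
      x ≤ m * (J * Real.log 2) - CH F.p (F.D J) F.Z + κ * (J + a') + C

/-- One block. -/
def BaseN (m : ℕ) (δ C : ℝ) (g : ℕ) (S : LSys m) : Prop :=
  ∃ η : ℝ, 0 < η ∧ ∀ K : ℕ, 3 / 2 ^ K ≤ η → ∃ Λ : ℝ, 1 ≤ Λ ∧ ∃ L₀ : ℕ, ∀ L ≥ L₀,
    STP S (fN (m + 1) L K η Λ) Λ L 1 g δ (C * (1 + Λ))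

/-- **What has to be proved for the class of labels.** -/
def PotTStmt (m : ℕ) : Prop :=
  ∀ δ : ℝ, 0 < δ → ∃ (S : LSys m) (C : ℝ) (A g : ℕ), 0 ≤ C ∧ 2 * g ≤ A ∧ LOCZ S C A g ∧
    EndsN m δ S ∧ BaseN m δ C g S

theorem log_le_lin {c t z : ℝ} (hc : 0 ≤ c) (ht : 0 < t) (hz : 0 < z) :
    c * Real.log z ≤ t * z + c ^ 2 / t := by
  have h0 : 0 < Real.sqrt z := Real.sqrt_pos.2 hz
  have h1 : Real.log z = 2 * Real.log (Real.sqrt z) := by
    rw [Real.log_sqrt hz.le]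
    ring
  have h2 := Real.log_le_sub_one_of_pos h0
  have h3 : Real.log z ≤ 2 * Real.sqrt z := by
    rw [h1]
    linarith
  have h4 : Real.sqrt z ^ 2 = z := Real.sq_sqrt hz.le
  have h5 : 2 * (c * Real.sqrt z) ≤ t * z + c ^ 2 / t := by
    have e : t * z + c ^ 2 / t = (t ^ 2 * z + c ^ 2) / t := by field_simp
    rw [e, le_div_iff₀ ht]
    have h6 := sq_nonneg (t * Real.sqrt z - c)
    have h7 : (t * Real.sqrt z - c) ^ 2 = t ^ 2 * Real.sqrt z ^ 2 -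
        2 * (c * Real.sqrt z) * t + c ^ 2 := by ring
    rw [h7, h4] at h6
    linarith
  nlinarith [mul_le_mul_of_nonneg_left h3 hc]

theorem log_sq_lin {B t z : ℝ} (hB : 0 ≤ B) (ht : 0 < t) (hz : 2 ≤ z) :
    B * Real.log z ^ 2 ≤ t * z + 64 * B ^ 2 / t := by
  have h0 : 0 < Real.sqrt z := Real.sqrt_pos.2 (by linarith)
  have h0' : 0 < Real.sqrt (Real.sqrt z) := Real.sqrt_pos.2 h0
  have h1 : Real.log z = 4 * Real.log (Real.sqrt (Real.sqrt z)) := by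
    rw [Real.log_sqrt h0.le, Real.log_sqrt (by linarith)]
    ring
  have h2 := Real.log_le_sub_one_of_pos h0'
  have h3 : 0 ≤ Real.log z := Real.log_nonneg (by linarith)
  have h4 : Real.log z ≤ 4 * Real.sqrt (Real.sqrt z) := by
    rw [h1]
    linarith
  have h5 : Real.sqrt (Real.sqrt z) ^ 2 = Real.sqrt z := Real.sq_sqrt h0.le
  have h6 : Real.log z ^ 2 ≤ 16 * Real.sqrt z := by
    calc Real.log z ^ 2 ≤ (4 * Real.sqrt (Real.sqrt z)) ^ 2 := pow_le_pow_left₀ h3 h4 2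
      _ = 16 * Real.sqrt (Real.sqrt z) ^ 2 := by ring
      _ = _ := by rw [h5]
  have h7 : Real.sqrt z ^ 2 = z := Real.sq_sqrt (by linarith)
  have h8 : 16 * (B * Real.sqrt z) ≤ t * z + 64 * B ^ 2 / t := by
    have e : t * z + 64 * B ^ 2 / t = (t ^ 2 * z + 64 * B ^ 2) / t := by field_simp
    rw [e, le_div_iff₀ ht]
    have h9 := sq_nonneg (t * Real.sqrt z - 8 * B)
    have h10 : (t * Real.sqrt z - 8 * B) ^ 2 = t ^ 2 * Real.sqrt z ^ 2 -
        16 * (B * Real.sqrt z) * t + 64 * B ^ 2 := by ring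
    rw [h10, h7] at h9
    linarith
  nlinarith [mul_le_mul_of_nonneg_left h6 hB]

theorem log_log_lin {ε C₁ q N x J : ℝ} (hε : 0 < ε) (hC₁ : 0 ≤ C₁) (hq0 : 0 ≤ q)
    (hN0 : 0 ≤ N) (hx : 0 ≤ x) (hNJ : N ≤ J) (hxJ : x ≤ C₁ * (J + 1)) :
    q * Real.log (N + 2) * Real.log (x + J + 2) ≤
      ε * J + (2 * ε + 64 * q ^ 2 / (ε / (C₁ + 1))) := by
  have hJ0 : 0 ≤ J := hN0.trans hNJ
  have hp : 0 ≤ C₁ * J := mul_nonneg hC₁ hJ0
  have hz : (2 : ℝ) ≤ (C₁ + 1) * (J + 2) := by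
    have e : (C₁ + 1) * (J + 2) = C₁ * J + 2 * C₁ + J + 2 := by ring
    rw [e]
    linarith only [hp, hC₁, hJ0]
  have e : (C₁ + 1) * (J + 2) = C₁ * J + 2 * C₁ + J + 2 := by ring
  have h4 : Real.log (N + 2) ≤ Real.log ((C₁ + 1) * (J + 2)) := by
    refine Real.log_le_log (by linarith only [hN0]) ?_
    rw [e]
    linarith only [hp, hC₁, hNJ]
  have h5 : Real.log (x + J + 2) ≤ Real.log ((C₁ + 1) * (J + 2)) := by
    refine Real.log_le_log (by linarith only [hx, hJ0]) ?_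
    rw [e]
    linarith only [hp, hC₁, hxJ]
  have h6 : 0 ≤ Real.log (N + 2) := Real.log_nonneg (by linarith only [hN0])
  have h7 : 0 ≤ Real.log (x + J + 2) := Real.log_nonneg (by linarith only [hx, hJ0])
  have h8 : Real.log (N + 2) * Real.log (x + J + 2) ≤ Real.log ((C₁ + 1) * (J + 2)) ^ 2 := by
    rw [sq]
    exact mul_le_mul h4 h5 h7 (h6.trans h4)
  have h9 := log_sq_lin hq0 (show 0 < ε / (C₁ + 1) by positivity) hz
  have h10 : ε / (C₁ + 1) * ((C₁ + 1) * (J + 2)) = ε * J + 2 * ε := by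
    field_simp
  rw [h10] at h9
  have h11 := mul_le_mul_of_nonneg_left h8 hq0
  calc q * Real.log (N + 2) * Real.log (x + J + 2)
      = q * (Real.log (N + 2) * Real.log (x + J + 2)) := by ring
    _ ≤ q * Real.log ((C₁ + 1) * (J + 2)) ^ 2 := h11
    _ ≤ _ := by linarith only [h9]

/-- **From the class of labels to the bound by the cost of the times.** -/
theorem bn_of_potT {m : ℕ} (h : PotTStmt m) : BNStmt m := by
  intro δ hδ
  obtain ⟨S, C, A, g, hC, hg, hL, ⟨C₁, hC₁, hE⟩, η, hη, hB⟩ := h (δ / 8) (by positivity)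
  refine ⟨η, hη, fun K hK => ?_⟩
  obtain ⟨Λ, hΛ, L₀, hST⟩ := hB K hK
  have hΛ0 : 0 < Λ := by linarith
  have hcc : 0 ≤ 12 * C * (1 + Λ) := by positivity
  obtain ⟨L₁, hL₁⟩ := exists_nat_ge (4 * (12 * C * (1 + Λ)) ^ 2 * (3 + A) / (δ / 8) ^ 2)
  refine ⟨Λ, hΛ, max (max L₀ L₁) (max (2 * g) 1), fun L hLL => ?_⟩
  have l0 : L₀ ≤ L := ((le_max_left _ _).trans (le_max_left _ _)).trans hLL
  have l1 : L₁ ≤ L := ((le_max_right _ _).trans (le_max_left _ _)).trans hLL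
  have l2 : 2 * g ≤ L := ((le_max_left _ _).trans (le_max_right _ _)).trans hLL
  have l3 : 1 ≤ L := ((le_max_right _ _).trans (le_max_right _ _)).trans hLL
  have hL0 : (1 : ℝ) ≤ L := by exact_mod_cast l3
  have hA0 : (0 : ℝ) ≤ A := Nat.cast_nonneg A
  have hg0 : (0 : ℝ) ≤ g := Nat.cast_nonneg g
  have hEL : 12 * C * (1 + Λ) * Real.log ((1 + A) * L + 2) / L ≤ δ / 8 := by
    rw [div_le_iff₀ (by linarith)]
    have ht : 0 < δ / 8 / (2 * (3 + (A : ℝ))) := by positivity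
    have h1 := log_le_lin hcc ht (show (0 : ℝ) < (1 + A) * L + 2 by positivity)
    have h2 : δ / 8 / (2 * (3 + (A : ℝ))) * ((1 + A) * L + 2) ≤ δ / 8 * L / 2 := by
      have h3 : (1 + (A : ℝ)) * L + 2 ≤ (3 + A) * L := by nlinarith
      calc δ / 8 / (2 * (3 + (A : ℝ))) * ((1 + A) * L + 2)
          ≤ δ / 8 / (2 * (3 + (A : ℝ))) * ((3 + A) * L) :=
            mul_le_mul_of_nonneg_left h3 ht.le
        _ = δ / 8 * L / 2 := by
            field_simp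
    have h4 : (12 * C * (1 + Λ)) ^ 2 / (δ / 8 / (2 * (3 + (A : ℝ)))) ≤ δ / 8 * L / 2 := by
      have h5 : 4 * (12 * C * (1 + Λ)) ^ 2 * (3 + A) / (δ / 8) ^ 2 ≤ L :=
        hL₁.trans (by exact_mod_cast l1)
      rw [div_le_iff₀ (by positivity)] at h5
      rw [div_le_iff₀ ht]
      have h6 : δ / 8 * L / 2 * (δ / 8 / (2 * (3 + (A : ℝ)))) =
          (L * (δ / 8) ^ 2) / (4 * (3 + A)) := by
        field_simp
        ring
      rw [h6, le_div_iff₀ (by positivity)]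
      linarith
    linarith
  obtain ⟨q, hq⟩ : ∃ q, q = 4 * C * (1 + Λ) * (1 + Real.log (1 + 2 * g) / Real.log 2) :=
    ⟨_, rfl⟩
  have hq0 : 0 ≤ q := by
    rw [hq]
    have hl2 : 0 < Real.log 2 := Real.log_pos (by norm_num)
    have hlg : 0 ≤ Real.log (1 + 2 * (g : ℝ)) := Real.log_nonneg (by linarith)
    positivity
  refine ⟨2 * C₁ + (2 * (δ / 8) + 64 * q ^ 2 / (δ / 8 / (C₁ + 1))), ?_⟩
  intro N F y hBd hAdm
  obtain ⟨c, k, a, hka, hG, hF⟩ := hE (L * N) F hBd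
  have h1 := thmBN hC hg hL hΛ0 l3 (nng_fN (by omega) K η hΛ) (by positivity) (hST L l0) rfl F y
    hAdm c k a _ hG
  have h2 := hF _ _ h1
  rw [co_cst, ← hq] at h2
  obtain ⟨J, hJ⟩ : ∃ J : ℝ, J = ((L * N : ℕ) : ℝ) := ⟨_, rfl⟩
  rw [← hJ] at h2 hka
  have hgN : ((2 * g * N : ℕ) : ℝ) ≤ J := by
    have h3 : 2 * g * N ≤ L * N := Nat.mul_le_mul_right _ l2
    rw [hJ]
    exact_mod_cast h3
  have hJ0 : (0 : ℝ) ≤ J := by
    rw [hJ]
    exact Nat.cast_nonneg _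
  have hNJ : (N : ℝ) ≤ J := by
    have h3 : N ≤ L * N := Nat.le_mul_of_pos_left _ l3
    rw [hJ]
    exact_mod_cast h3
  have h3 := log_log_lin (ε := δ / 8) (C₁ := C₁) (q := q) (N := (N : ℝ))
    (x := (k : ℝ) + a) (J := J) (by positivity) hC₁ hq0 (Nat.cast_nonneg N) (by positivity)
    hNJ hka
  have h4 : δ / 8 * ((J : ℝ) + (2 * g * N : ℕ)) ≤ δ / 4 * J := by
    have h40 := mul_le_mul_of_nonneg_left hgN (show 0 ≤ δ / 8 by positivity)
    linarith only [h40]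
  have h5 : (δ / 8 + 12 * C * (1 + Λ) * Real.log ((1 + A) * L + 2) / L) * (J : ℝ) ≤ δ / 4 * J :=
    mul_le_mul_of_nonneg_right (by linarith) hJ0
  rw [← hJ]
  have e1 : ((m : ℝ) + 1) * (J * Real.log 2) = m * (J * Real.log 2) + J * Real.log 2 := by ring
  rw [e1] at h2
  have h6 : 0 ≤ δ * J := by positivity
  linarith

end Pool.KN
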