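import Pool.Agent.H15.KN.Loc
import Pool.Agent.H15.KN.Walk

/-!
# Localization and the base of the tower, from the geometry of the class and the turning step
-/

set_option autoImplicit false

namespace Pool.KN

open Finset Real
open Pool.Agent.H49.Ent Pool.Agent.H32.Dense Pool.STK Pool.KA
open Pool.KM7 (Nng Psh P2)

variable {m : ℕ} {L : LV m} {G : GS L} {C : ℝ} {g : ℕ}

/-- The cost of a copy. -/
theorem co_ext {Y : Type} {f : Y → ℕ → ℝ} {Λ : ℝ} {K N sh : ℕ} {J : ℕ} {F : Fam m J} {E : Type}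
    [Fintype E] {p' : E → ℝ} {hp' : IsLaw p'} {pr : E → F.Ω} (h : Psh p' pr F.p)
    (y : ℕ → F.Ω → Y) :
    co f Λ K N sh (F.ext p' hp' pr) (fun i e => y i (pr e)) = co f Λ K N sh F y := by
  have h1 : ∀ i, Ex p' (fun e => f (y (sh + i) (pr e)) (F.T (pr e) / 2 ^ (K * (sh + i)) % 2 ^ K)) =
      Ex F.p (fun ω => f (y (sh + i) ω) (F.T ω / 2 ^ (K * (sh + i)) % 2 ^ K)) :=
    fun i => h.Ex_eq (fun ω => f (y (sh + i) ω) (F.T ω / 2 ^ (K * (sh + i)) % 2 ^ K))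
  have h2 : CH p' (fun e => F.T (pr e) / 2 ^ (K * sh) % 2 ^ (K * N))
      (fun e => ((F.l (pr e), F.Z (pr e)), F.T (pr e) / 2 ^ (K * (sh + N)))) =
      CH F.p (fun ω => F.T ω / 2 ^ (K * sh) % 2 ^ (K * N))
      (fun ω => ((F.l ω, F.Z ω), F.T ω / 2 ^ (K * (sh + N)))) :=
    h.CH_eq (fun ω => F.T ω / 2 ^ (K * sh) % 2 ^ (K * N))
      (fun ω => ((F.l ω, F.Z ω), F.T ω / 2 ^ (K * (sh + N))))
  unfold co
  rw [← h2, Finset.sum_congr rfl fun i _ => (h1 i).symm]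
  rfl

theorem adm_ext {Y : Type} {K N : ℕ} {J : ℕ} {F : Fam m J} {E : Type}
    [Fintype E] {p' : E → ℝ} {hp' : IsLaw p'} {pr : E → F.Ω} (h : Psh p' pr F.p)
    {y : ℕ → F.Ω → Y} (hA : Adm K N F y) :
    Adm K N (F.ext p' hp' pr) (fun i e => y i (pr e)) := by
  intro i hi a b ha hb hab
  exact hA i hi (pr a) (pr b) (h.pos hp'.nonneg ha) (h.pos hp'.nonneg hb) hab

/-- **The passage from the local claim to all families.** -/
theorem loc_aff {hx : ℕ → ℕ → L.Cx → L.V → ℝ} {A : ℕ} {δ₂ : ℝ} (hG : Geo G C g)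
    (hT : Turn G hx C δ₂ A g) (hC : 0 ≤ C) :
    ∃ C' : ℝ, 0 ≤ C' ∧ C ≤ C' ∧ ∀ (Y : Type) (f : Y → ℕ → ℝ) (Λ : ℝ), 0 < Λ → ∀ K N : ℕ, 1 ≤ K →
      1 ≤ N → ∀ (G₀ : ℕ) (δ α β : ℝ), 0 ≤ β → LCL L hx f Λ K N g G₀ δ α β →
      ∀ (J sh w : ℕ), J = w + K * N + K * sh → ∀ (F : Fam m J) (c : F.ζ → L.Cx) (k a : ℕ)
      (y : ℕ → F.Ω → Y), Adm K (sh + N) F y → ∀ x : ℝ, L.Get F (w + K * N) c k a x →
      L.Get F w c k (a + (G₀ + 3 * g)) (x - co f Λ K N sh F y - (δ + δ₂) * (K * N : ℕ) - α -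
        β * (A * (K * N : ℕ) + C' * Real.log (k + a + (K * N : ℕ) + 2)) -
        C' * (1 + Λ) * Real.log (k + a + (K * N : ℕ) + 2)) := by
  have hl2 : 0 < Real.log 2 := Real.log_pos (by norm_num)
  have hg0 : (0 : ℝ) ≤ g := Nat.cast_nonneg g
  obtain ⟨q, hq⟩ : ∃ q, q = 1 + Real.log (1 + g) / Real.log 2 := ⟨_, rfl⟩
  have hq1 : 1 ≤ q := by
    rw [hq]
    have : 0 ≤ Real.log (1 + (g : ℝ)) / Real.log 2 :=
      div_nonneg (Real.log_nonneg (by linarith)) hl2.le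
    linarith
  have hcq : 0 ≤ C * q := mul_nonneg hC (by linarith)
  have hcl : 0 ≤ C / Real.log 2 := div_nonneg hC hl2.le
  refine ⟨2 * C + C / Real.log 2 + 2 * (C * q), by linarith, by linarith, ?_⟩
  intro Y f Λ hΛ K N hK hN G₀ δ α β hβ hP J sh w hJ F c k a y hA x hget
  have hℓ : 1 ≤ K * N := Nat.one_le_iff_ne_zero.mpr (by positivity)
  obtain ⟨E, hE, p', hp', pr, b, hpsh, hok, hPsi, hrg, hhx⟩ :=
    hT J w (K * N) hℓ (by omega) F c k a x hget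
  have h1 := loc_self hG hΛ hP hJ (F.ext p' hp' pr) c k (a + g) (fun i e => y i (pr e))
    (adm_ext hpsh hA) b hok
  rw [co_ext hpsh] at h1
  have h2 := LV.Get.of_ext hpsh h1
  refine h2.mono (by omega) ?_
  change _ ≤ L.Psi (F.ext p' hp' pr) (w + K * N) b - co f Λ K N sh F y - δ * (K * N : ℕ) - α -
      β * Ex (P2 p' (G.gg (F.ext p' hp' pr) w (K * N) c b))
        (fun e => (G.rg (G.SS (F.ext p' hp' pr) w (K * N) c b e) : ℝ)) -
      Ex (P2 p' (G.gg (F.ext p' hp' pr) w (K * N) c b))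
        (fun e => hx J (w + K * N) (G.CC (F.ext p' hp' pr) w (K * N) c b e) (b e.2)) - C -
      C * (1 + 2 * Λ) * Real.log (k + (a + g : ℕ) + (K * N : ℕ) + 2)
  obtain ⟨lM, hlM⟩ : ∃ lM, lM = Real.log (k + a + (K * N : ℕ) + 2) := ⟨_, rfl⟩
  have hk0 : (0 : ℝ) ≤ k := Nat.cast_nonneg k
  have ha0 : (0 : ℝ) ≤ a := Nat.cast_nonneg a
  have hn0 : (0 : ℝ) ≤ ((K * N : ℕ) : ℝ) := Nat.cast_nonneg _
  have hlM2 : Real.log 2 ≤ lM := by
    rw [hlM]
    exact Real.log_le_log (by norm_num) (by linarith)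
  have hlg : Real.log (k + (a + g : ℕ) + (K * N : ℕ) + 2) ≤ q * lM := by
    have e1 : Real.log (k + (a + g : ℕ) + (K * N : ℕ) + 2) ≤ Real.log (1 + g) + lM := by
      rw [hlM, ← Real.log_mul (by positivity) (by positivity)]
      refine Real.log_le_log (by positivity) ?_
      rw [Nat.cast_add]
      have p1 := mul_nonneg hg0 hk0
      have p2 := mul_nonneg hg0 ha0
      have p3 := mul_nonneg hg0 hn0
      have e2 : (1 + (g : ℝ)) * (k + a + (K * N : ℕ) + 2) =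
          k + a + (K * N : ℕ) + 2 + g * k + g * a + g * (K * N : ℕ) + 2 * g := by ring
      rw [e2]
      linarith
    have e3 : Real.log (1 + (g : ℝ)) ≤ Real.log (1 + g) / Real.log 2 * lM := by
      have e4 : 0 ≤ Real.log (1 + (g : ℝ)) / Real.log 2 :=
        div_nonneg (Real.log_nonneg (by linarith)) hl2.le
      calc Real.log (1 + (g : ℝ)) = Real.log (1 + g) / Real.log 2 * Real.log 2 := by
            field_simp
        _ ≤ _ := mul_le_mul_of_nonneg_left hlM2 e4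
    rw [hq]
    linarith
  have hlM0 : 0 ≤ lM := hl2.le.trans hlM2
  rw [← hlM] at hPsi hrg hhx ⊢
  have m1 := mul_le_mul_of_nonneg_left hrg hβ
  have m2 : C * (1 + 2 * Λ) * Real.log (k + (a + g : ℕ) + (K * N : ℕ) + 2) ≤
      C * (1 + 2 * Λ) * (q * lM) := mul_le_mul_of_nonneg_left hlg (by positivity)
  have m3 : C ≤ C / Real.log 2 * lM := by
    calc C = C / Real.log 2 * Real.log 2 := by field_simp
      _ ≤ _ := mul_le_mul_of_nonneg_left hlM2 hcl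
  have m4 : β * (C * lM) ≤ β * ((2 * C + C / Real.log 2 + 2 * (C * q)) * lM) :=
    mul_le_mul_of_nonneg_left (mul_le_mul_of_nonneg_right (by linarith) hlM0) hβ
  have p1 : 0 ≤ Λ * (C * lM) := by positivity
  have p2 : 0 ≤ Λ * (C / Real.log 2 * lM) := by positivity
  have p3 : 0 ≤ C * q * lM := by positivity
  have e5 : (2 * C + C / Real.log 2 + 2 * (C * q)) * (1 + Λ) * lM =
      2 * (C * lM) + C / Real.log 2 * lM + 2 * (C * q * lM) + 2 * (Λ * (C * lM)) +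
        Λ * (C / Real.log 2 * lM) + 2 * (Λ * (C * q * lM)) := by ring
  have e6 : C * (1 + 2 * Λ) * (q * lM) = C * q * lM + 2 * (Λ * (C * q * lM)) := by ring
  rw [e6] at m2
  rw [e5]
  have e7 : β * (A * (K * N : ℕ) + C * lM) = β * (A * (K * N : ℕ)) + β * (C * lM) := by ring
  have e8 : β * (A * (K * N : ℕ) + (2 * C + C / Real.log 2 + 2 * (C * q)) * lM) =
      β * (A * (K * N : ℕ)) + β * ((2 * C + C / Real.log 2 + 2 * (C * q)) * lM) := by ring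
  rw [e7] at m1
  rw [e8]
  linarith

/-- The logarithm of the mean range. -/
theorem log_z_le {C' : ℝ} (hC' : 0 ≤ C') (A g : ℕ) : ∃ A' : ℕ, ∀ (n : ℕ) (l : ℝ), 1 ≤ n →
    0 ≤ l → Real.log ((1 + A) * n + C' * l + g + 2) ≤ Real.log ((1 + A') * n + 2) + l / 6 := by
  obtain ⟨A', hA'⟩ := exists_nat_ge (((3 + A) + C' + g) * 6)
  refine ⟨A', fun n l hn hl => ?_⟩
  have hn1 : (1 : ℝ) ≤ n := by exact_mod_cast hn
  have hn0 : (n : ℝ) ≠ 0 := by positivity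
  have hg0 : (0 : ℝ) ≤ g := Nat.cast_nonneg g
  have hA0 : (0 : ℝ) ≤ A := Nat.cast_nonneg A
  have hD : 0 ≤ (3 + (A : ℝ)) + C' + g := by positivity
  have h1 : (1 + (A : ℝ)) * n + C' * l + g + 2 ≤ (((3 + A) + C' + g) * n) * (1 + l) := by
    have p1 : C' * l ≤ C' * l * n := by
      have : 0 ≤ C' * l := by positivity
      nlinarith
    have p2 : (g : ℝ) ≤ g * n := by nlinarith
    have p3 : 0 ≤ ((3 + (A : ℝ)) + g) * n * l := by positivity
    have p4 : 0 ≤ C' * n := by positivity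
    nlinarith
  have h2 : Real.log (1 + l) ≤ l / 6 + Real.log 6 := by
    have h3 := Real.log_le_sub_one_of_pos (show 0 < (1 + l) / 6 by positivity)
    rw [Real.log_div (by positivity) (by norm_num)] at h3
    linarith
  calc Real.log ((1 + A) * n + C' * l + g + 2)
      ≤ Real.log ((((3 + A) + C' + g) * n) * (1 + l)) := Real.log_le_log (by positivity) h1
    _ = Real.log (((3 + A) + C' + g) * n) + Real.log (1 + l) := by
        rw [Real.log_mul (x := ((3 + (A : ℝ)) + C' + g) * n) (by positivity) (by positivity)]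
    _ ≤ Real.log (((3 + A) + C' + g) * n) + (l / 6 + Real.log 6) := by linarith
    _ = Real.log ((((3 + A) + C' + g) * n) * 6) + l / 6 := by
        rw [Real.log_mul (x := ((3 + (A : ℝ)) + C' + g) * n) (by positivity) (by norm_num)]
        ring
    _ ≤ Real.log ((1 + A') * n + 2) + l / 6 := by
        have h4 : Real.log ((((3 + A) + C' + g) * n) * 6) ≤ Real.log ((1 + A') * n + 2) := by
          refine Real.log_le_log (by positivity) ?_
          have h5 := mul_le_mul_of_nonneg_right hA' (show (0 : ℝ) ≤ n by linarith)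
          linarith
        linarith

/-- **(LOCALIZE)** from the geometry of the class and the turning step. -/
theorem locz_of {A : ℕ} {hx : ℕ → ℕ → L.Cx → L.V → ℝ} {δ₂ : ℝ} (hG : Geo G C g)
    (hT : Turn G hx C δ₂ A g) (hC : 0 ≤ C) :
    ∃ (C' : ℝ), 0 ≤ C' ∧ ∀ C'' ≥ C', ∃ A' : ℕ, ∀ A'' ≥ A', ∀ g' ≥ 3 * g,
      LOCZ L.sys C'' A'' g' := by
  have hT0 : Turn G (fun _ _ _ _ => 0) C 0 A g := by
    intro J w l hl hw F c k a x hget
    obtain ⟨E, hE, p', hp', pr, b, h1, h2, h3, h4, _⟩ := hT J w l hl hw F c k a x hget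
    refine ⟨E, hE, p', hp', pr, b, h1, h2, h3, h4, ?_⟩
    have h5 : 0 ≤ Real.log ((k : ℝ) + a + l + 2) := Real.log_nonneg (by
      have : (0 : ℝ) ≤ (k : ℝ) + a + l := by positivity
      linarith)
    have h6 := mul_nonneg hC h5
    have h7 : Ex (P2 p' (G.gg (F.ext p' hp' pr) w l c b)) (fun _ => (0 : ℝ)) = 0 := by
      unfold Ex
      simp
    rw [h7]
    linarith
  obtain ⟨C', hC', _, hloc⟩ := loc_aff hG hT0 hC
  refine ⟨2 * C', by linarith, fun C'' hC'' => ?_⟩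
  obtain ⟨A', hA'⟩ := log_z_le hC' A g
  refine ⟨A', fun A'' hA'' g' hg' => ?_⟩
  intro Y f Λ hΛ K hK _ N hN G₁ δ c₀ hδ hc₀ hc3 hP J sh w hJ F c k a y hA x hget
  have hℓ : 1 ≤ K * N := Nat.one_le_iff_ne_zero.mpr (by positivity)
  have hn1 : (1 : ℝ) ≤ ((K * N : ℕ) : ℝ) := by exact_mod_cast hℓ
  obtain ⟨lM, hlM⟩ : ∃ lM, lM = Real.log (k + a + (K * N : ℕ) + 2) := ⟨_, rfl⟩
  have hlM0 : 0 ≤ lM := by
    rw [hlM]
    refine Real.log_nonneg ?_
    have : (0 : ℝ) ≤ (k : ℝ) + a + (K * N : ℕ) := by positivity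
    linarith
  obtain ⟨z, hz⟩ : ∃ z : ℝ, z = (1 + A) * (K * N : ℕ) + C' * lM + g + 2 := ⟨_, rfl⟩
  have hz0 : 0 < z := by
    rw [hz]
    positivity
  have hL : LCL L (fun _ _ _ _ => 0) f Λ K N g G₁ δ
      (c₀ * (Real.log z + (g + (K * N : ℕ) + 2) / z - 1)) (c₀ / z) := by
    intro J' sh' w' hJ' F' c' k' y' hA' b' hb'
    have h1 := hP J' sh' w' hJ' F' c' k' g y' hA' _ (LV.Get.self F' hb')
    refine LV.Get.mono (le_refl _) ?_ h1
    have hzz : 0 < (k' : ℝ) + g + (K * N : ℕ) + 2 := by positivity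
    have h2 := Real.log_le_sub_one_of_pos (div_pos hzz hz0)
    rw [Real.log_div hzz.ne' hz0.ne'] at h2
    have h3 : Real.log ((k' : ℝ) + g + (K * N : ℕ) + 2) ≤
        Real.log z + (g + (K * N : ℕ) + 2) / z - 1 + k' / z := by
      have e : ((k' : ℝ) + g + (K * N : ℕ) + 2) / z = (g + (K * N : ℕ) + 2) / z + k' / z := by
        rw [← add_div]
        congr 1
        ring
      rw [e] at h2
      linarith
    have h4 := mul_le_mul_of_nonneg_left h3 hc₀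
    have h5 : c₀ * (Real.log z + (g + (K * N : ℕ) + 2) / z - 1 + k' / z) =
        c₀ * (Real.log z + (g + (K * N : ℕ) + 2) / z - 1) + c₀ / z * k' := by ring
    have h6 : Ex F'.p (fun _ => (0 : ℝ)) = 0 := by
      unfold Ex
      simp
    rw [h6]
    linarith
  have h1 := hloc Y f Λ hΛ K N hK hN G₁ δ _ (c₀ / z) (div_nonneg hc₀ hz0.le) hL J sh w hJ F c k a y
    hA x hget
  refine LV.Get.mono (by omega) ?_ h1
  rw [← hlM]
  have e1 : c₀ * (Real.log z + (g + (K * N : ℕ) + 2) / z - 1) +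
      c₀ / z * (A * (K * N : ℕ) + C' * lM) = c₀ * Real.log z := by
    have e2 : (g + ((K * N : ℕ) : ℝ) + 2) + (A * (K * N : ℕ) + C' * lM) = z := by
      rw [hz]
      ring
    have e3 : c₀ * (Real.log z + (g + (K * N : ℕ) + 2) / z - 1) +
        c₀ / z * (A * (K * N : ℕ) + C' * lM) = c₀ * Real.log z +
        c₀ * (((g + ((K * N : ℕ) : ℝ) + 2) + (A * (K * N : ℕ) + C' * lM)) / z - 1) := by
      field_simp
      ring
    rw [e3, e2, div_self hz0.ne']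
    ring
  have e4 := hA' (K * N) lM hℓ hlM0
  rw [← hz] at e4
  have e5 : Real.log ((1 + A') * (K * N : ℕ) + 2) ≤ Real.log ((1 + A'') * (K * N : ℕ) + 2) := by
    refine Real.log_le_log (by positivity) ?_
    have h5 : (A' : ℝ) ≤ A'' := by exact_mod_cast hA''
    have h6 := mul_le_mul_of_nonneg_right h5 (show (0 : ℝ) ≤ ((K * N : ℕ) : ℝ) by linarith)
    linarith
  obtain ⟨lA, hlA⟩ : ∃ lA, lA = Real.log ((1 + A'') * (K * N : ℕ) + 2) := ⟨_, rfl⟩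
  have hlA0 : 0 ≤ lA := by
    rw [hlA]
    refine Real.log_nonneg ?_
    have : (0 : ℝ) ≤ (1 + (A'' : ℝ)) * (K * N : ℕ) := by positivity
    linarith
  rw [← hlA] at e5 ⊢
  have e6 : c₀ * Real.log z ≤ c₀ * (lA + lM / 6) :=
    mul_le_mul_of_nonneg_left (by linarith) hc₀
  have hC''0 : 0 ≤ C'' := by linarith
  have e7 : c₀ * lM ≤ 3 * (C'' * (1 + Λ)) * lM := mul_le_mul_of_nonneg_right hc3 hlM0
  have e8 : (δ + (c₀ + C'' * (1 + Λ)) * lA / (K * N : ℕ)) * ((K * N : ℕ) : ℝ) =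
      δ * (K * N : ℕ) + (c₀ * lA + C'' * (1 + Λ) * lA) := by
    field_simp
  have e9 : C' * (1 + Λ) * lM ≤ C'' / 2 * (1 + Λ) * lM := by
    refine mul_le_mul_of_nonneg_right (mul_le_mul_of_nonneg_right (by linarith) ?_) hlM0
    linarith
  have e10 : 0 ≤ C'' * (1 + Λ) * lA := by positivity
  rw [e8]
  have e11 : C'' / 2 * (1 + Λ) * lM = C'' * (1 + Λ) * lM / 2 := by ring
  have e12 : 3 * (C'' * (1 + Λ)) * lM = 3 * (C'' * (1 + Λ) * lM) := by ring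
  rw [e12] at e7
  rw [e11] at e9
  linarith

/-- **(BOX)** One block of the local problem: the loss is the cost, `δ L`, `ε` times the range,
and the mean of `hx`. -/
def BoxN (L : LV m) (hx : ℕ → ℕ → L.Cx → L.V → ℝ) (δ : ℝ) (g Gb : ℕ) : Prop :=
  ∀ ε : ℝ, 0 < ε → ∃ η : ℝ, 0 < η ∧ ∀ K : ℕ, 3 / 2 ^ K ≤ η → ∃ Λ : ℝ, 1 ≤ Λ ∧ ∃ L₀ : ℕ,
    ∀ ℓ ≥ L₀, LCL L hx (fN (m + 1) ℓ K η Λ) Λ ℓ 1 g Gb δ (ε * ℓ) ε

/-- **The base of the tower.** -/
theorem base_of {A : ℕ} {hx : ℕ → ℕ → L.Cx → L.V → ℝ} {δ : ℝ} (hδ : 0 < δ) {Gb : ℕ}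
    (hG : Geo G C g) (hT : Turn G hx C (δ / 3) A g) (hC : 0 ≤ C)
    (hB : BoxN L hx (δ / 3) g Gb) :
    ∃ C' : ℝ, 0 ≤ C' ∧ ∀ C'' ≥ C', ∀ g' ≥ Gb + 3 * g, BaseN m δ C'' g' L.sys := by
  obtain ⟨C', hC', _, hloc⟩ := loc_aff hG hT hC
  refine ⟨2 * C', by linarith, fun C'' hC'' g' hg' => ?_⟩
  have hA0 : (0 : ℝ) ≤ A := Nat.cast_nonneg A
  obtain ⟨ε, hε⟩ : ∃ ε : ℝ, ε = min 1 (δ / 3 / (1 + A)) := ⟨_, rfl⟩
  have hε0 : 0 < ε := by
    rw [hε]
    positivity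
  have hε1 : ε ≤ 1 := by
    rw [hε]
    exact min_le_left _ _
  have hεA : ε * (1 + A) ≤ δ / 3 := by
    have h1 : ε ≤ δ / 3 / (1 + A) := by
      rw [hε]
      exact min_le_right _ _
    calc ε * (1 + A) ≤ δ / 3 / (1 + A) * (1 + A) :=
          mul_le_mul_of_nonneg_right h1 (by positivity)
      _ = δ / 3 := by field_simp
  obtain ⟨η, hη, hη2⟩ := hB ε hε0
  refine ⟨η, hη, fun K hK => ?_⟩
  obtain ⟨Λ, hΛ, L₀, hL₀⟩ := hη2 K hK
  refine ⟨Λ, hΛ, max L₀ 1, fun ℓ hℓ => ?_⟩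
  have hℓ0 : L₀ ≤ ℓ := (le_max_left _ _).trans hℓ
  have hℓ1 : 1 ≤ ℓ := (le_max_right _ _).trans hℓ
  intro J sh w hJ F c k a y hA x hget
  have h1 := hloc _ (fN (m + 1) ℓ K η Λ) Λ (by linarith) ℓ 1 hℓ1 (le_refl _) Gb (δ / 3) (ε * ℓ) ε
    hε0.le (hL₀ ℓ hℓ0) J sh w hJ F c k a y hA x hget
  refine LV.Get.mono (by omega) ?_ h1
  obtain ⟨lM, hlM⟩ : ∃ lM, lM = Real.log (k + a + (ℓ * 1 : ℕ) + 2) := ⟨_, rfl⟩
  have hlM0 : 0 ≤ lM := by
    rw [hlM]
    refine Real.log_nonneg ?_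
    have : (0 : ℝ) ≤ (k : ℝ) + a + (ℓ * 1 : ℕ) := by positivity
    linarith
  rw [← hlM, mul_one]
  have hℓr : (0 : ℝ) ≤ ℓ := Nat.cast_nonneg ℓ
  have m1 := mul_le_mul_of_nonneg_right hεA hℓr
  have e1 : ε * (1 + A) * ℓ = ε * ℓ + ε * (A * ℓ) := by ring
  rw [e1] at m1
  have m2 : ε * (C' * lM) ≤ 1 * (C' * lM) := mul_le_mul_of_nonneg_right hε1 (by positivity)
  have m3 : C' * (1 + Λ) * lM ≤ C'' / 2 * (1 + Λ) * lM := by
    refine mul_le_mul_of_nonneg_right (mul_le_mul_of_nonneg_right (by linarith) ?_) hlM0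
    linarith
  have m4 : C' * lM ≤ C'' / 2 * lM := mul_le_mul_of_nonneg_right (by linarith) hlM0
  have hC''0 : 0 ≤ C'' := by linarith
  have m5 : 0 ≤ C'' / 2 * (Λ * lM) := by positivity
  have e2 : C'' / 2 * (1 + Λ) * lM = C'' / 2 * lM + C'' / 2 * (Λ * lM) := by ring
  have e3 : C'' * (1 + Λ) * lM = 2 * (C'' / 2 * lM) + 2 * (C'' / 2 * (Λ * lM)) := by ring
  have e4 : ε * (A * ℓ + C' * lM) = ε * (A * ℓ) + ε * (C' * lM) := by ring
  rw [e2] at m3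
  rw [e3, e4]
  linarith

/-- **What has to be proved for the class of labels**: the geometry, the turning step, the two ends
of the walk, and the box. -/
def PotLStmt (m : ℕ) : Prop :=
  ∀ δ : ℝ, 0 < δ → ∃ (L : LV m) (G : GS L) (hx : ℕ → ℕ → L.Cx → L.V → ℝ) (C : ℝ) (A g Gb : ℕ),
    0 ≤ C ∧ Geo G C g ∧ Turn G hx C (δ / 3) A g ∧ EndsN m δ L.sys ∧ BoxN L hx (δ / 3) g Gb

theorem potT_of {m : ℕ} (h : PotLStmt m) : PotTStmt m := by
  intro δ hδ
  obtain ⟨L, G, hx, C, A, g, Gb, hC, hG, hT, hE, hB⟩ := h δ hδ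
  obtain ⟨C₁, hC₁, h1⟩ := locz_of hG hT hC
  obtain ⟨C₂, hC₂, h2⟩ := base_of hδ hG hT hC hB
  obtain ⟨A', hA'⟩ := h1 (max C₁ C₂) (le_max_left _ _)
  refine ⟨L.sys, max C₁ C₂, max A' (2 * (Gb + 3 * g)), Gb + 3 * g,
    hC₁.trans (le_max_left _ _), le_max_right _ _, ?_, hE, ?_⟩
  · exact hA' _ (le_max_left _ _) _ (by omega)
  · exact h2 _ (le_max_right _ _) _ (le_refl _)

/-- **The bound by the cost of the times, from the class of labels.** -/
theorem bn_of_potL {m : ℕ} (h : PotLStmt m) : BNStmt m := bn_of_potT (potT_of h)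

end Pool.KN
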