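import Pool.Agent.H15.KN.Cst

/-!
# The tower and the walk, for an abstract class of labels

`LSys.Get F w c k a x`: the family `F` has a label at the window `w`, of potential at least `x`,
between the coarse cell given by `c` and a cell which is `2 ^ (-k)` times as large, up to the
slack `2 ^ a`.
-/

set_option autoImplicit false

namespace Pool.KN

open Finset Real
open Pool.Agent.H49.Ent Pool.Agent.H32.Dense Pool.STK Pool.KA
open Pool.KM7 (Nng)

/-- An abstract class of labels. -/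
structure LSys (m : ℕ) where
  /-- the coarse cells -/
  Cx : Type
  /-- some label at the window `w`, with the range `k` and the slack `a`, has potential at
  least `x` -/
  Get : ∀ {J : ℕ} (F : Fam m J) (_w : ℕ) (_c : F.ζ → Cx) (_k _a : ℕ) (_x : ℝ), Prop
  mono : ∀ {J : ℕ} {F : Fam m J} {w : ℕ} {c : F.ζ → Cx} {k a a' : ℕ} {x x' : ℝ}, a ≤ a' →
    x' ≤ x → Get F w c k a x → Get F w c k a' x'

variable {m : ℕ} (S : LSys m) {Y : Type} (f : Y → ℕ → ℝ) (Λ : ℝ) (K : ℕ)

/-- **`N` blocks lose at most their cost, `δ` for each digit, and `c₀ log (k + a + K N + 2)`**;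
the slack grows by `G`. -/
def STP (N G : ℕ) (δ c₀ : ℝ) : Prop :=
  ∀ (J sh w : ℕ), J = w + K * N + K * sh → ∀ (F : Fam m J) (c : F.ζ → S.Cx) (k a : ℕ)
    (y : ℕ → F.Ω → Y), Adm K (sh + N) F y → ∀ x : ℝ, S.Get F (w + K * N) c k a x →
      S.Get F w c k (a + G) (x - co f Λ K N sh F y - δ * (K * N : ℕ) -
        c₀ * Real.log (k + a + (K * N : ℕ) + 2))

/-- **(LOCALIZE)** The loss `c₀ log (k + a + K N + 2)` of the local problems becomes
`c₀ log ((1 + A) K N + 2)`, and `C (1 + Λ) log (k + a + K N + 2)`. -/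
def LOCZ (C : ℝ) (A g : ℕ) : Prop :=
  ∀ (Y : Type) (f : Y → ℕ → ℝ) (Λ : ℝ), 0 < Λ → ∀ K : ℕ, 1 ≤ K → Nng f Λ K → ∀ N : ℕ, 1 ≤ N →
    ∀ (G : ℕ) (δ c₀ : ℝ), 0 ≤ δ → 0 ≤ c₀ → c₀ ≤ 3 * (C * (1 + Λ)) → STP S f Λ K N G δ c₀ →
      STP S f Λ K N (G + g) (δ + (c₀ + C * (1 + Λ)) *
        Real.log ((1 + A) * (K * N : ℕ) + 2) / (K * N : ℕ)) (C * (1 + Λ))

variable {S f Λ K}

theorem STP.mono {N G G' : ℕ} {δ δ' c₀ c₀' : ℝ} (h : δ ≤ δ') (hc : c₀ ≤ c₀') (hG : G ≤ G')
    (hP : STP S f Λ K N G δ c₀) : STP S f Λ K N G' δ' c₀' := by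
  intro J sh w hJ F c k a y hA x hx
  refine S.mono (by omega) ?_ (hP J sh w hJ F c k a y hA x hx)
  have h1 : δ * ((K * N : ℕ) : ℝ) ≤ δ' * ((K * N : ℕ) : ℝ) :=
    mul_le_mul_of_nonneg_right h (Nat.cast_nonneg _)
  have h2 : 0 ≤ Real.log (k + a + (K * N : ℕ) + 2) := Real.log_nonneg (by
    have : (0 : ℝ) ≤ (k : ℝ) + a + (K * N : ℕ) := by positivity
    linarith)
  have h3 := mul_le_mul_of_nonneg_right hc h2
  linarith

theorem get_eq {J : ℕ} {F : Fam m J} {w w' : ℕ} (h : w = w') {c : F.ζ → S.Cx} {k a : ℕ} {x : ℝ}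
    (hG : S.Get F w c k a x) : S.Get F w' c k a x := by
  subst h
  exact hG

/-- Two steps. -/
theorem STP.two {N₁ N₂ G₁ G₂ g : ℕ} {δ c₁ c₂ : ℝ} (hK : 1 ≤ K) (h2c : 0 ≤ c₂) (h1c : 0 ≤ c₁)
    (hG : G₁ ≤ 2 * g * N₁) (h1 : STP S f Λ K N₁ G₁ δ c₁) (h2 : STP S f Λ K N₂ G₂ δ c₂) :
    ∀ (J sh w : ℕ), J = w + K * (N₁ + N₂) + K * sh → ∀ (F : Fam m J) (c : F.ζ → S.Cx) (k a : ℕ)
      (y : ℕ → F.Ω → Y), Adm K (sh + (N₁ + N₂)) F y → ∀ x : ℝ,
      S.Get F (w + K * (N₁ + N₂)) c k a x →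
      S.Get F w c k (a + (G₁ + G₂)) (x - co f Λ K (N₁ + N₂) sh F y - δ * (K * (N₁ + N₂) : ℕ) -
        (c₁ + c₂) * Real.log (k + a + (K * (N₁ + N₂) : ℕ) + 2) - c₂ * Real.log (1 + 2 * g)) := by
  intro J sh w hJ F c k a y hA x hx
  have e1 : K * (N₁ + N₂) = K * N₂ + K * N₁ := by ring
  have e2 : K * (sh + N₁) = K * N₁ + K * sh := by ring
  have h3 := h1 J sh (w + K * N₂) (by omega) F c k a y (hA.mono (by omega)) x
    (get_eq (by omega) hx)
  have h4 := h2 J (sh + N₁) w (by omega) F c k (a + G₁) y (hA.mono (by omega)) _ h3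
  refine S.mono (by omega) ?_ h4
  rw [co_add]
  have e3 : ((K * (N₁ + N₂) : ℕ) : ℝ) = (K * N₁ : ℕ) + (K * N₂ : ℕ) := by
    rw [e1]
    push_cast
    ring
  have hk0 : (0 : ℝ) ≤ k := Nat.cast_nonneg k
  have ha0 : (0 : ℝ) ≤ a := Nat.cast_nonneg a
  have hn1 : (0 : ℝ) ≤ ((K * N₁ : ℕ) : ℝ) := Nat.cast_nonneg _
  have hn2 : (0 : ℝ) ≤ ((K * N₂ : ℕ) : ℝ) := Nat.cast_nonneg _
  have hg0 : (0 : ℝ) ≤ g := Nat.cast_nonneg g
  have hG1 : (G₁ : ℝ) ≤ 2 * g * (K * N₁ : ℕ) := by
    have h5 : G₁ ≤ 2 * g * (K * N₁) := by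
      refine hG.trans (Nat.mul_le_mul_left _ ?_)
      exact Nat.le_mul_of_pos_left _ hK
    exact_mod_cast h5
  have l1 : Real.log (k + a + (K * N₁ : ℕ) + 2) ≤
      Real.log (k + a + (K * (N₁ + N₂) : ℕ) + 2) := by
    refine Real.log_le_log (by positivity) ?_
    rw [e3]
    linarith
  have l2 : Real.log (k + (a + G₁ : ℕ) + (K * N₂ : ℕ) + 2) ≤
      Real.log (k + a + (K * (N₁ + N₂) : ℕ) + 2) + Real.log (1 + 2 * g) := by
    rw [← Real.log_mul (by positivity) (by positivity)]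
    refine Real.log_le_log (by positivity) ?_
    rw [e3, Nat.cast_add a G₁]
    have q1 := mul_nonneg hg0 hk0
    have q2 := mul_nonneg hg0 ha0
    have q3 := mul_nonneg hg0 hn2
    have q4 : ((k : ℝ) + a + ((K * N₁ : ℕ) + (K * N₂ : ℕ)) + 2) * (1 + 2 * g) =
        k + a + ((K * N₁ : ℕ) + (K * N₂ : ℕ)) + 2 + 2 * (g * k) + 2 * (g * a) +
        2 * g * (K * N₁ : ℕ) + 2 * (g * (K * N₂ : ℕ)) + 4 * g := by ring
    rw [q4]
    linarith
  have m1 := mul_le_mul_of_nonneg_left l1 h1c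
  have m2 := mul_le_mul_of_nonneg_left l2 h2c
  rw [e3] at m1 m2 ⊢
  linarith

/-- `2 ^ j` blocks. -/
theorem stp_pow {C : ℝ} (hC : 0 ≤ C) {A g : ℕ} (hg : 2 * g ≤ A) (hL : LOCZ S C A g) (hΛ : 0 < Λ)
    (hK : 1 ≤ K) (hf : Nng f Λ K) {δ : ℝ} (hδ : 0 ≤ δ) (hP : STP S f Λ K 1 g δ (C * (1 + Λ)))
    (j : ℕ) :
    STP S f Λ K (2 ^ j) (g * (2 * 2 ^ j - 1))
      (δ + 12 * C * (1 + Λ) * Real.log ((1 + A) * K + 2) / K) (C * (1 + Λ)) := by
  have hl2 : 0 < Real.log 2 := Real.log_pos (by norm_num)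
  have hK0 : (0 : ℝ) < K := by exact_mod_cast hK
  have hc0 : 0 ≤ C * (1 + Λ) := by positivity
  set a := Real.log ((1 + A) * K + 2) with ha
  have ha2 : Real.log 2 ≤ a := by
    refine Real.log_le_log (by norm_num) ?_
    have : (0 : ℝ) ≤ (1 + A) * K := by positivity
    linarith
  set D : ℕ → ℝ := fun j => 2 * C * (1 + Λ) / K *
    (2 * a * (1 - 1 / 2 ^ j) + Real.log 2 * (4 - (2 * j + 4) / 2 ^ j)) with hD
  have hD0 : ∀ j, 0 ≤ D j := by
    intro j
    have h1 : (1 : ℝ) / 2 ^ j ≤ 1 := by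
      rw [div_le_one (by positivity)]
      exact one_le_pow₀ (by norm_num)
    have h2 : (2 * (j : ℝ) + 4) / 2 ^ j ≤ 4 := by
      rw [div_le_iff₀ (by positivity)]
      have h3 : (j : ℝ) + 1 ≤ 2 ^ j := by
        have h4 : j + 1 ≤ 2 ^ j := Nat.lt_two_pow_self
        exact_mod_cast h4
      nlinarith [Nat.cast_nonneg (α := ℝ) j]
    have h5 : 0 ≤ a := hl2.le.trans ha2
    have h6 : 0 ≤ 2 * a * (1 - 1 / 2 ^ j) := mul_nonneg (by positivity) (by linarith)
    have h7 : 0 ≤ Real.log 2 * (4 - (2 * (j : ℝ) + 4) / 2 ^ j) :=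
      mul_nonneg hl2.le (by linarith)
    simp only [hD]
    have h8 : 0 ≤ 2 * C * (1 + Λ) / K := by positivity
    exact mul_nonneg h8 (by linarith)
  have key : ∀ j, STP S f Λ K (2 ^ j) (g * (2 * 2 ^ j - 1)) (δ + D j) (C * (1 + Λ)) := by
    intro j
    induction j with
    | zero =>
      have h1 : D 0 = 0 := by
        simp only [hD]
        norm_num
      rw [h1, add_zero, pow_zero]
      exact hP.mono le_rfl le_rfl (by omega)
    | succ j ih =>
      obtain ⟨n, hn⟩ : ∃ n, n = 2 ^ (j + 1) := ⟨_, rfl⟩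
      have e0 : 2 ^ j + 2 ^ j = n := by rw [hn]; ring
      have hn1 : 1 ≤ n := by rw [hn]; exact Nat.one_le_two_pow
      have hj1 : 1 ≤ 2 ^ j := Nat.one_le_two_pow
      have hG0 : g * (2 * 2 ^ j - 1) ≤ 2 * g * 2 ^ j := by
        calc g * (2 * 2 ^ j - 1) ≤ g * (2 * 2 ^ j) := Nat.mul_le_mul_left _ (Nat.sub_le _ _)
          _ = 2 * g * 2 ^ j := by ring
      have h0 := STP.two hK hc0 hc0 hG0 ih ih
      rw [e0] at h0
      have hKn : (0 : ℝ) < ((K * n : ℕ) : ℝ) := by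
        have : 0 < K * n := Nat.mul_pos hK hn1
        exact_mod_cast this
      have h0' : STP S f Λ K n (g * (2 * 2 ^ j - 1) + g * (2 * 2 ^ j - 1))
          (δ + D j + C * (1 + Λ) * Real.log (1 + 2 * g) / (K * n : ℕ))
          (C * (1 + Λ) + C * (1 + Λ)) := by
        intro J sh w hJ F c k a y hA x hx
        refine S.mono le_rfl ?_ (h0 J sh w hJ F c k a y hA x hx)
        have h2 : (δ + D j + C * (1 + Λ) * Real.log (1 + 2 * g) / (K * n : ℕ)) *
            ((K * n : ℕ) : ℝ) = (δ + D j) * ((K * n : ℕ) : ℝ) +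
            C * (1 + Λ) * Real.log (1 + 2 * g) := by
          field_simp
        rw [h2]
        linarith
      have hlg : 0 ≤ Real.log (1 + 2 * (g : ℝ)) := Real.log_nonneg (by
        have : (0 : ℝ) ≤ g := Nat.cast_nonneg g
        linarith)
      have h1 := hL Y f Λ hΛ K hK hf n hn1 _ _
        (C * (1 + Λ) + C * (1 + Λ)) (by have := hD0 j; positivity) (by positivity) (by linarith)
        h0'
      rw [← hn]
      refine h1.mono ?_ le_rfl ?_
      · have hgA : Real.log (1 + 2 * (g : ℝ)) ≤ Real.log ((1 + A) * (K * n : ℕ) + 2) := by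
          refine Real.log_le_log (by positivity) ?_
          have h2 : (2 : ℝ) * g ≤ A := by exact_mod_cast hg
          have h3 : (1 : ℝ) ≤ ((K * n : ℕ) : ℝ) := by
            have : 1 ≤ K * n := Nat.mul_pos hK hn1
            exact_mod_cast this
          have h4 : (0 : ℝ) ≤ A := Nat.cast_nonneg A
          nlinarith
        have hlog : Real.log ((1 + A) * (K * n : ℕ) + 2) ≤ a + (j + 1) * Real.log 2 := by
          have h2 : (0 : ℝ) < (1 + A) * (K * n : ℕ) + 2 := by positivity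
          have h3 : a + (j + 1) * Real.log 2 =
              Real.log (((1 + A) * K + 2) * 2 ^ (j + 1)) := by
            rw [Real.log_mul (by positivity) (by positivity), Real.log_pow]
            push_cast
            rfl
          rw [h3]
          refine Real.log_le_log h2 ?_
          have h4 : (1 : ℝ) ≤ 2 ^ (j + 1) := one_le_pow₀ (by norm_num)
          rw [hn]
          push_cast
          nlinarith
        have hD1 : D (j + 1) = D j +
            2 * (C * (1 + Λ)) * (a + (j + 1) * Real.log 2) / (K * 2 ^ j) := by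
          simp only [hD]
          push_cast
          field_simp
          ring
        rw [hD1]
        have e1 : (((K * n : ℕ)) : ℝ) = 2 * (K * 2 ^ j) := by
          rw [hn]
          push_cast
          ring
        have h5 : C * (1 + Λ) * Real.log (1 + 2 * g) / (K * n : ℕ) +
            (C * (1 + Λ) + C * (1 + Λ) + C * (1 + Λ)) *
              Real.log ((1 + A) * (K * n : ℕ) + 2) / (K * n : ℕ) ≤
            2 * (C * (1 + Λ)) * (a + (j + 1) * Real.log 2) / (K * 2 ^ j) := by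
          rw [← add_div, div_le_div_iff₀ hKn (by positivity), e1]
          have h6 : C * (1 + Λ) * Real.log (1 + 2 * g) +
              (C * (1 + Λ) + C * (1 + Λ) + C * (1 + Λ)) *
              Real.log ((1 + A) * (2 * (K * 2 ^ j)) + 2) ≤
              4 * (C * (1 + Λ)) * (a + (j + 1) * Real.log 2) := by
            rw [e1] at hgA hlog
            have h7 := mul_le_mul_of_nonneg_left hgA hc0
            have h8 := mul_le_mul_of_nonneg_left hlog hc0
            linarith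
          have h9 : (0 : ℝ) ≤ K * 2 ^ j := by positivity
          have h10 := mul_le_mul_of_nonneg_right h6 h9
          linarith
        linarith
      · have h3 : n = 2 * 2 ^ j := by omega
        have h4 : g * (2 * 2 ^ j - 1) + g * (2 * 2 ^ j - 1) + g = g * (2 * n - 1) := by
          have h5 : 2 * n - 1 = (2 * 2 ^ j - 1) + (2 * 2 ^ j - 1) + 1 := by omega
          rw [h5]
          ring
        exact h4.le
  refine (key j).mono ?_ le_rfl le_rfl
  have h5 : 0 ≤ a := hl2.le.trans ha2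
  have h1 : (0 : ℝ) ≤ 1 / 2 ^ j := by positivity
  have h2 : (0 : ℝ) ≤ (2 * (j : ℝ) + 4) / 2 ^ j := by positivity
  have h3 : 2 * a * (1 - 1 / 2 ^ j) ≤ 2 * a := by nlinarith
  have h4 : Real.log 2 * (4 - (2 * (j : ℝ) + 4) / 2 ^ j) ≤ 4 * a := by nlinarith
  have h6 : D j ≤ 2 * C * (1 + Λ) / K * (6 * a) := by
    simp only [hD]
    refine mul_le_mul_of_nonneg_left (by linarith) (by positivity)
  have h7 : 2 * C * (1 + Λ) / K * (6 * a) = 12 * C * (1 + Λ) * a / K := by ring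
  linarith

/-- **The walk** from any window to any other, by blocks of lengths powers of two. -/
theorem stp_walk {C : ℝ} (hC : 0 ≤ C) {A g : ℕ} (hg : 2 * g ≤ A) (hL : LOCZ S C A g)
    (hΛ : 0 < Λ) (hK : 1 ≤ K) (hf : Nng f Λ K) {δ : ℝ} (hδ : 0 ≤ δ)
    (hP : STP S f Λ K 1 g δ (C * (1 + Λ))) (b : ℕ) :
    ∀ n < 2 ^ b, STP S f Λ K n (2 * g * n)
      (δ + 12 * C * (1 + Λ) * Real.log ((1 + A) * K + 2) / K)
      (b * (C * (1 + Λ) * (1 + Real.log (1 + 2 * g) / Real.log 2))) := by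
  have hl2 : 0 < Real.log 2 := Real.log_pos (by norm_num)
  have hlg : 0 ≤ Real.log (1 + 2 * (g : ℝ)) := Real.log_nonneg (by
    have : (0 : ℝ) ≤ g := Nat.cast_nonneg g
    linarith)
  set δ' := δ + 12 * C * (1 + Λ) * Real.log ((1 + A) * K + 2) / K with hδ'
  have hla : 0 ≤ Real.log ((1 + A) * K + 2) := Real.log_nonneg (by
    have : (0 : ℝ) ≤ (1 + A) * K := by positivity
    linarith)
  have hδ0 : 0 ≤ δ' := by positivity
  have hc0 : 0 ≤ C * (1 + Λ) := by positivity
  set q := Real.log (1 + 2 * g) / Real.log 2 with hq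
  have hq0 : 0 ≤ q := by positivity
  induction b with
  | zero =>
    intro n hn J sh w hJ F c k a y hA x hx
    have hn0 : n = 0 := by
      rw [pow_zero] at hn
      omega
    subst hn0
    refine S.mono (by omega) ?_ (get_eq (by omega) hx)
    rw [co_zero]
    push_cast
    simp
  | succ b ih =>
    intro n hn
    by_cases hb : n < 2 ^ b
    · refine (ih n hb).mono le_rfl ?_ le_rfl
      push_cast
      have : 0 ≤ C * (1 + Λ) * (1 + q) := by positivity
      nlinarith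
    · push Not at hb
      obtain ⟨n', rfl⟩ := Nat.exists_eq_add_of_le hb
      have hn' : n' < 2 ^ b := by
        rw [pow_succ] at hn
        omega
      have h1 := stp_pow hC hg hL hΛ hK hf hδ hP b
      have hcb : 0 ≤ (b : ℝ) * (C * (1 + Λ) * (1 + q)) := by positivity
      have h2 := STP.two hK hc0 hcb le_rfl (ih n' hn') h1
      rw [add_comm n' (2 ^ b)] at h2
      intro J sh w hJ F c k a y hA x hx
      refine S.mono ?_ ?_ (h2 J sh w hJ F c k a y hA x hx)
      · have h3 : g * (2 * 2 ^ b - 1) ≤ 2 * g * 2 ^ b := by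
          calc g * (2 * 2 ^ b - 1) ≤ g * (2 * 2 ^ b) := Nat.mul_le_mul_left _ (Nat.sub_le _ _)
            _ = 2 * g * 2 ^ b := by ring
        have h4 : 2 * g * (2 ^ b + n') = 2 * g * 2 ^ b + 2 * g * n' := by ring
        omega
      · have hX : Real.log 2 ≤ Real.log (k + a + (K * (2 ^ b + n') : ℕ) + 2) := by
          refine Real.log_le_log (by norm_num) ?_
          have : (0 : ℝ) ≤ (k : ℝ) + a + (K * (2 ^ b + n') : ℕ) := by positivity
          linarith
        have h3 : Real.log (1 + 2 * (g : ℝ)) ≤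
            q * Real.log (k + a + (K * (2 ^ b + n') : ℕ) + 2) := by
          have h4 : Real.log (1 + 2 * (g : ℝ)) = q * Real.log 2 := by
            rw [hq]
            field_simp
          rw [h4]
          exact mul_le_mul_of_nonneg_left hX hq0
        have h5 := mul_le_mul_of_nonneg_left h3 hc0
        have h6 : ((b + 1 : ℕ) : ℝ) * (C * (1 + Λ) * (1 + q)) *
            Real.log (k + a + (K * (2 ^ b + n') : ℕ) + 2) =
            ((b : ℝ) * (C * (1 + Λ) * (1 + q)) + C * (1 + Λ)) *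
              Real.log (k + a + (K * (2 ^ b + n') : ℕ) + 2) +
            C * (1 + Λ) * (q * Real.log (k + a + (K * (2 ^ b + n') : ℕ) + 2)) := by
          push_cast
          ring
        rw [h6]
        linarith

/-- **From the base case to all families.** -/
theorem thmBN {C : ℝ} (hC : 0 ≤ C) {A g : ℕ} (hg : 2 * g ≤ A) (hL : LOCZ S C A g) (hΛ : 0 < Λ)
    (hK : 1 ≤ K) (hf : Nng f Λ K) {δ : ℝ} (hδ : 0 ≤ δ)
    (hP : STP S f Λ K 1 g δ (C * (1 + Λ))) {N J : ℕ}
    (hJ : J = K * N) (F : Fam m J) (y : ℕ → F.Ω → Y) (hA : Adm K N F y) (c : F.ζ → S.Cx)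
    (k a : ℕ) (x : ℝ) (hx : S.Get F J c k a x) :
    S.Get F 0 c k (a + 2 * g * N) (x - co f Λ K N 0 F y -
      (δ + 12 * C * (1 + Λ) * Real.log ((1 + A) * K + 2) / K) * J -
      4 * C * (1 + Λ) * (1 + Real.log (1 + 2 * g) / Real.log 2) *
        Real.log (N + 2) * Real.log (k + a + J + 2)) := by
  have hl2 : 0 < Real.log 2 := Real.log_pos (by norm_num)
  have hNb : N < 2 ^ (Nat.log 2 N + 1) := Nat.lt_pow_succ_log_self (by norm_num) N
  have h1 := stp_walk hC hg hL hΛ hK hf hδ hP (Nat.log 2 N + 1) N hNb J 0 0 (by omega) F c k a y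
    (by rw [zero_add]; exact hA) x (get_eq (by omega) hx)
  refine S.mono le_rfl ?_ h1
  have e1 : (((K * N : ℕ)) : ℝ) = J := by rw [hJ]
  rw [e1]
  have hlk : 0 ≤ Real.log ((k : ℝ) + a + J + 2) := Real.log_nonneg (by
    have : (0 : ℝ) ≤ (k : ℝ) + a + J := by positivity
    linarith)
  have hlg : 0 ≤ Real.log (1 + 2 * (g : ℝ)) := Real.log_nonneg (by
    have : (0 : ℝ) ≤ g := Nat.cast_nonneg g
    linarith)
  have h2 : (((Nat.log 2 N + 1 : ℕ)) : ℝ) ≤ 4 * Real.log ((N : ℝ) + 2) := by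
    have h3 : ((Nat.log 2 N : ℕ) : ℝ) * Real.log 2 ≤ Real.log ((N : ℝ) + 2) := by
      rw [← Real.log_pow]
      refine Real.log_le_log (by positivity) ?_
      rcases Nat.eq_zero_or_pos N with h0 | h0
      · subst h0
        norm_num
      · have h4 : 2 ^ Nat.log 2 N ≤ N := Nat.pow_log_le_self 2 (by omega)
        have h5 : (2 : ℝ) ^ Nat.log 2 N ≤ N := by exact_mod_cast h4
        linarith
    have h4 : Real.log 2 ≤ Real.log ((N : ℝ) + 2) :=
      Real.log_le_log (by norm_num) (by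
        have : (0 : ℝ) ≤ N := Nat.cast_nonneg N
        linarith)
    have h5 : (0.69 : ℝ) < Real.log 2 := by
      have := Real.log_two_gt_d9
      linarith
    push_cast
    nlinarith
  have h3 : 0 ≤ C * (1 + Λ) * (1 + Real.log (1 + 2 * g) / Real.log 2) := by positivity
  have h4 := mul_le_mul_of_nonneg_right (mul_le_mul_of_nonneg_right h2 h3) hlk
  linarith

end Pool.KN
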